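import Pool.Agent.MedDiv.Brun

/-!
# MedDiv / Mult: counting the multiples in a short interval by Brun's sieve
-/

set_option autoImplicit false

namespace Pool.MedDiv

open Finset

theorem om_eq_zero {Q : Finset ℕ} {b : ℕ} : om Q b = 0 ↔ ∀ p ∈ Q, ¬ p ∣ b := by
  unfold om
  rw [card_eq_zero, filter_eq_empty_iff]

open scoped Classical in
/-- integers of `(A, A+L]` with a divisor in `(Y, 1.9 Y]` -/
noncomputable def MM (Y A L : ℕ) : Finset ℕ :=
  (Ioc A (A + L)).filter (fun m => ∃ k, Y < k ∧ 10 * k ≤ 19 * Y ∧ k ∣ m)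

theorem mem_MM {Y A L m : ℕ} : m ∈ MM Y A L ↔ (A < m ∧ m ≤ A + L) ∧ ∃ k, Y < k ∧ 10 * k ≤ 19 * Y ∧ k ∣ m := by
  classical
  unfold MM
  rw [mem_filter, mem_Ioc]

theorem mult_abs {Φ : Finset ℕ} {Z B Y J L : ℕ} (hZ : 1 ≤ Z)
    (hsm : ∀ N ∈ Φ, 0 < N ∧ N ≤ B ∧ ∀ p, p.Prime → p ∣ N → p ≤ Z)
    (hdiv : ∀ N ∈ Φ, ∃ k, Y < k ∧ 10 * k ≤ 19 * Y ∧ k ∣ N) (hJ : Odd J)
    (hV : Real.exp (Real.exp 1 * rs (pr 0 Z) - J) ≤ (∏ p ∈ pr 0 Z, (1 - 1 / (p : ℝ))) / 4)
    (hL : 4 * (B : ℝ) * (1 + (Z : ℝ) ^ J * Real.exp (rs (pr 0 Z))) ≤ (∏ p ∈ pr 0 Z, (1 - 1 / (p : ℝ))) * L)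
    (A : ℕ) :
    (∏ p ∈ pr 0 Z, (1 - 1 / (p : ℝ))) / 2 * L * ∑ N ∈ Φ, 1 / (N : ℝ) ≤ ((MM Y A L).card : ℝ) := by
  classical
  set Q := pr 0 Z with hQ
  have hQp : ∀ p ∈ Q, p.Prime ∧ p ≤ Z := by
    intro p hp
    rw [hQ, pr, mem_filter, mem_Ioc] at hp
    exact ⟨hp.2, hp.1.2⟩
  set V : ℝ := ∏ p ∈ Q, (1 - 1 / (p : ℝ)) with hVdef
  have hV1 : V ≤ 1 := by
    refine prod_le_one (fun p hp => ?_) (fun p hp => ?_)
    · have h2 : (1 : ℝ) ≤ p := by exact_mod_cast (hQp p hp).1.one_lt.le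
      have : 1 / (p : ℝ) ≤ 1 := by
        rw [div_le_one (by linarith)]
        exact h2
      linarith
    · have : (0 : ℝ) ≤ 1 / (p : ℝ) := by positivity
      linarith
  have hV0 : 0 < V := by
    have := Real.exp_pos (Real.exp 1 * rs Q - J)
    linarith
  set E : ℝ := (Z : ℝ) ^ J * Real.exp (rs Q) with hE
  have hE0 : 0 ≤ E := by positivity
  -- one cofactor class
  set F : ℕ → Finset ℕ := fun N => (Ico (A / N + 1) (A / N + 1 + ((A + L) / N - A / N))).filter (fun b => om Q b = 0)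
    with hF
  have hF1 : ∀ N ∈ Φ, V / 2 * L * (1 / (N : ℝ)) ≤ ((F N).card : ℝ) := by
    intro N hN
    obtain ⟨hN0, hNB, -⟩ := hsm N hN
    have hN0' : (0 : ℝ) < N := by exact_mod_cast hN0
    have h1 := brun_low hQp hZ hJ (A / N + 1) ((A + L) / N - A / N)
    set X : ℕ := (A + L) / N - A / N with hX
    have hXl : (L : ℝ) / N - 1 ≤ X := by
      have e1 : A / N ≤ (A + L) / N := Nat.div_le_div_right (Nat.le_add_right _ _)
      have e2 : (X : ℝ) = ((A + L) / N : ℕ) - (A / N : ℕ) := by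
        rw [hX]
        push_cast [Nat.cast_sub e1]
        ring
      have e3 : ((A / N : ℕ) : ℝ) ≤ (A : ℝ) / N := Nat.cast_div_le
      have e4 : ((A : ℝ) + L) / N - 1 ≤ (((A + L) / N : ℕ) : ℝ) := by
        have e5 := Nat.lt_div_mul_add (a := A + L) hN0
        have e6 : ((A : ℝ) + L) < (((A + L) / N : ℕ) : ℝ) * N + N := by exact_mod_cast e5
        rw [sub_le_iff_le_add, div_le_iff₀ hN0']
        linarith
      have e7 : ((A : ℝ) + L) / N = (A : ℝ) / N + L / N := by ring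
      linarith
    have hX0 : (0 : ℝ) ≤ X := Nat.cast_nonneg _
    have h2 : V - Real.exp (Real.exp 1 * rs Q - J) ≥ 3 / 4 * V := by linarith
    have h3 : (L : ℝ) / N * (V / 4) ≥ 1 + E := by
      have hB : (0 : ℝ) < B := lt_of_lt_of_le hN0' (by exact_mod_cast hNB)
      have h4 : (1 + E) * (4 * B) ≤ V * L := by linarith
      have h5 : (N : ℝ) ≤ B := by exact_mod_cast hNB
      rw [ge_iff_le, div_mul_eq_mul_div, le_div_iff₀ hN0']
      nlinarith
    have h6 : (X : ℝ) * (V - Real.exp (Real.exp 1 * rs Q - J)) ≥ X * (3 / 4 * V) :=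
      mul_le_mul_of_nonneg_left h2 hX0
    have h7 : (X : ℝ) * (3 / 4 * V) ≥ ((L : ℝ) / N - 1) * (3 / 4 * V) :=
      mul_le_mul_of_nonneg_right hXl (by positivity)
    have h8 : V / 2 * L * (1 / (N : ℝ)) = (L : ℝ) / N * (V / 2) := by ring
    rw [h8]
    rw [hF]
    simp only
    nlinarith
  have hdisj : ∀ N ∈ Φ, ∀ N' ∈ Φ, N ≠ N' → Disjoint ((F N).image (fun b => N * b)) ((F N').image (fun b => N' * b)) := by
    have half : ∀ N ∈ Φ, ∀ N' ∈ Φ, ∀ b b', om Q b = 0 → om Q b' = 0 → N * b = N' * b' → N ∣ N' := by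
      intro N hN N' _ b b' _ hb' h
      have hc : Nat.Coprime N b' := by
        rw [Nat.coprime_iff_gcd_eq_one]
        by_contra hne
        obtain ⟨p, hp, hpd⟩ := Nat.exists_prime_and_dvd hne
        have hpN := hpd.trans (Nat.gcd_dvd_left _ _)
        have hpb := hpd.trans (Nat.gcd_dvd_right _ _)
        have hpQ : p ∈ Q := by
          rw [hQ, pr, mem_filter, mem_Ioc]
          exact ⟨⟨hp.pos, (hsm N hN).2.2 p hp hpN⟩, hp⟩
        exact om_eq_zero.1 hb' p hpQ hpb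
      exact hc.dvd_of_dvd_mul_right (Dvd.intro _ h)
    intro N hN N' hN' hne
    rw [disjoint_left]
    intro m hm hm'
    rw [mem_image] at hm hm'
    obtain ⟨b, hb, rfl⟩ := hm
    obtain ⟨b', hb', h⟩ := hm'
    have hb0 := (mem_filter.1 hb).2
    have hb0' := (mem_filter.1 hb').2
    exact hne (Nat.dvd_antisymm (half N hN N' hN' b b' hb0 hb0' h.symm) (half N' hN' N hN b' b hb0' hb0 h))
  have hsub : Φ.biUnion (fun N => (F N).image (fun b => N * b)) ⊆ MM Y A L := by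
    intro m hm
    rw [mem_biUnion] at hm
    obtain ⟨N, hN, hm⟩ := hm
    rw [mem_image] at hm
    obtain ⟨b, hb, rfl⟩ := hm
    rw [mem_filter, mem_Ico] at hb
    obtain ⟨⟨hb1, hb2⟩, -⟩ := hb
    have hN0 := (hsm N hN).1
    obtain ⟨k, hk1, hk2, hk3⟩ := hdiv N hN
    rw [mem_MM]
    refine ⟨⟨?_, ?_⟩, k, hk1, hk2, hk3.mul_right b⟩
    · have : A < N * (A / N + 1) := Nat.lt_mul_div_succ A hN0
      exact this.trans_le (Nat.mul_le_mul_left N hb1)
    · have e1 : A / N ≤ (A + L) / N := Nat.div_le_div_right (Nat.le_add_right _ _)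
      have hb3 : b ≤ (A + L) / N := by omega
      exact (Nat.mul_le_mul_left N hb3).trans (Nat.mul_div_le _ _)
  have hcard : ∑ N ∈ Φ, ((F N).card : ℝ) ≤ ((MM Y A L).card : ℝ) := by
    have h1 := card_le_card hsub
    rw [card_biUnion hdisj] at h1
    have h2 : ∑ N ∈ Φ, ((F N).image (fun b => N * b)).card = ∑ N ∈ Φ, (F N).card := by
      refine sum_congr rfl fun N hN => ?_
      refine card_image_of_injective _ fun a b hab => ?_
      exact Nat.eq_of_mul_eq_mul_left (hsm N hN).1 hab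
    rw [h2] at h1
    exact_mod_cast h1
  calc _ = ∑ N ∈ Φ, V / 2 * L * (1 / (N : ℝ)) := by rw [mul_sum]
    _ ≤ ∑ N ∈ Φ, ((F N).card : ℝ) := sum_le_sum hF1
    _ ≤ _ := hcard

end Pool.MedDiv
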