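import Pool.Agent.MedDiv.Dens
import Pool.Agent.MedDiv.Mult

/-!
# MedDiv / Low: integers of a short interval with a divisor in `(Y, 1.9 Y]`, lower bound
-/

set_option autoImplicit false

namespace Pool.MedDiv

open Finset Filter

theorem log_fac (r : ℕ) (hr : 1 ≤ r) :
    Real.log (r.factorial : ℝ) ≤ r * Real.log r - r + Real.log r + 1 := by
  induction r, hr using Nat.le_induction with
  | base => simp
  | succ r hr ih =>
    have hr0 : (0 : ℝ) < r := by exact_mod_cast hr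
    rw [Nat.factorial_succ]
    push_cast
    rw [Real.log_mul (by positivity) (by positivity)]
    have h1 : 1 / ((r : ℝ) + 1) ≤ Real.log ((r + 1) / r) := by
      have h := Real.one_sub_inv_le_log_of_pos (show (0 : ℝ) < (r + 1) / r by positivity)
      have e : 1 - (((r : ℝ) + 1) / r)⁻¹ = 1 / (r + 1) := by
        field_simp
        ring
      rw [e] at h
      exact h
    rw [Real.log_div (by positivity) (by positivity)] at h1
    have h2 : 1 ≤ ((r : ℝ) + 1) * (Real.log (r + 1) - Real.log r) := by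
      have := mul_le_mul_of_nonneg_left h1 (by positivity : (0 : ℝ) ≤ (r : ℝ) + 1)
      rwa [mul_one_div_cancel (by positivity)] at this
    nlinarith

theorem log2_pos : 0 < Real.log 2 := Real.log_pos (by norm_num)

theorem del_kappa : 1 - del = (1 + Real.log (Real.log 2)) / Real.log 2 := by
  unfold del; ring

theorem kappa_ge : 1 / 2 ≤ 1 - del := by
  rw [del_kappa, div_le_div_iff₀ (by norm_num) log2_pos]
  have h1 := Real.log_two_gt_d9
  have h2 := Real.log_two_lt_d9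
  have h3 := Real.one_sub_inv_le_log_of_pos log2_pos
  have h4 : (Real.log 2)⁻¹ ≤ 1.4428 := by
    rw [inv_le_comm₀ log2_pos (by norm_num)]
    norm_num
    linarith
  nlinarith

/-- choice of `r` -/
theorem exists_r (η C₀ : ℝ) (hη : 0 < η) (hC₀ : 0 < C₀) : ∃ r : ℕ, 1 ≤ r ∧ 1 ≤ r * Real.log 2 - C₀ ∧
    r * Real.log 2 * (1 - del - η / 2) ≤ Real.log ((r * Real.log 2 - C₀) ^ r / (r.factorial : ℝ)) := by
  have hl2 := log2_pos
  have h1 : ∀ᶠ x : ℝ in atTop, Real.log x ≤ (Real.log 2 * η / 4) * x := by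
    have := (Real.isLittleO_log_id_atTop).bound (show 0 < Real.log 2 * η / 4 by positivity)
    filter_upwards [this, eventually_ge_atTop 1] with x hx hx1
    rw [Real.norm_eq_abs, Real.norm_eq_abs, abs_of_nonneg (Real.log_nonneg hx1), id, abs_of_nonneg (by linarith)] at hx
    exact hx
  have h2 : ∀ᶠ x : ℝ in atTop, 1 + 2 * C₀ / Real.log 2 ≤ (Real.log 2 * η / 4) * x :=
    (tendsto_id.const_mul_atTop (show 0 < Real.log 2 * η / 4 by positivity)).eventually_ge_atTop _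
  have h3 : ∀ᶠ x : ℝ in atTop, 1 + 2 * C₀ ≤ x * Real.log 2 :=
    (tendsto_id.atTop_mul_const hl2).eventually_ge_atTop _
  obtain ⟨x₀, hx₀⟩ := eventually_atTop.1 (h1.and (h2.and (h3.and (eventually_ge_atTop 1))))
  obtain ⟨r, hr⟩ := exists_nat_ge x₀
  obtain ⟨g1, g2, g3, g4⟩ := hx₀ r hr
  have hr1 : 1 ≤ r := by exact_mod_cast g4
  have hr0 : (0 : ℝ) < r := by linarith
  refine ⟨r, hr1, by linarith, ?_⟩
  have hpos : 0 < r * Real.log 2 - C₀ := by linarith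
  rw [Real.log_div (by positivity) (by positivity), Real.log_pow]
  have hfac := log_fac r hr1
  have hlog : Real.log r + Real.log (Real.log 2) - 2 * C₀ / (r * Real.log 2) ≤ Real.log (r * Real.log 2 - C₀) := by
    have e : r * Real.log 2 - C₀ = (r * Real.log 2) * (1 - C₀ / (r * Real.log 2)) := by
      field_simp
    have hx1 : C₀ / (r * Real.log 2) ≤ 1 / 2 := by
      rw [div_le_div_iff₀ (by positivity) (by norm_num)]
      linarith
    have hx0 : 0 < C₀ / (r * Real.log 2) := by positivity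
    have h5 : -(2 * (C₀ / (r * Real.log 2))) ≤ Real.log (1 - C₀ / (r * Real.log 2)) := by
      generalize C₀ / (r * Real.log 2) = x at hx0 hx1
      have h := Real.one_sub_inv_le_log_of_pos (show 0 < 1 - x by linarith)
      refine le_trans ?_ h
      have : (1 - x)⁻¹ ≤ 1 + 2 * x := by
        rw [inv_le_iff_one_le_mul₀ (by linarith)]
        nlinarith
      linarith
    rw [e, Real.log_mul (by positivity) (by linarith), Real.log_mul (by positivity) (by positivity)]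
    have e2 : 2 * C₀ / (r * Real.log 2) = 2 * (C₀ / (r * Real.log 2)) := by ring
    rw [e2]
    linarith
  have h6 := mul_le_mul_of_nonneg_left hlog hr0.le
  have e3 : (r : ℝ) * (Real.log r + Real.log (Real.log 2) - 2 * C₀ / (r * Real.log 2)) =
      r * Real.log r + r * Real.log (Real.log 2) - 2 * C₀ / Real.log 2 := by
    field_simp
  rw [e3] at h6
  have e4 : (r : ℝ) * Real.log 2 * (1 - del - η / 2) = r * (1 + Real.log (Real.log 2)) - r * Real.log 2 * η / 2 := by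
    rw [del_kappa]
    field_simp
  rw [e4]
  nlinarith

theorem rs_upper : ∃ C₁ : ℝ, 0 < C₁ ∧ ∀ Z : ℕ, 2 ≤ Z → rs (pr 0 Z) ≤ Real.log (Real.log Z) + C₁ := by
  obtain ⟨C, hC0, hC⟩ := Pool.MRZ.PVb.mertens_nat
  refine ⟨C, hC0, fun Z hZ => ?_⟩
  have h := (abs_le.1 (hC Z hZ)).2
  have e : rs (pr 0 Z) = Pool.MRZ.PVb.S Z := rfl
  rw [e]
  linarith

theorem V_lower : ∃ c : ℝ, 0 < c ∧ ∀ Z : ℕ, 2 ≤ Z → c / Real.log Z ≤ ∏ p ∈ pr 0 Z, (1 - 1 / (p : ℝ)) := by
  obtain ⟨c, hc0, hc⟩ := Pool.Agent.RSL.th_low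
  refine ⟨c, hc0, fun Z hZ => ?_⟩
  have h := hc Z hZ
  have e : pr 0 Z = (range (Z + 1)).filter Nat.Prime := by
    ext p
    rw [pr, mem_filter, mem_filter, mem_Ioc, mem_range]
    constructor
    · rintro ⟨⟨_, h2⟩, h3⟩
      exact ⟨by omega, h3⟩
    · rintro ⟨h1, h3⟩
      exact ⟨⟨h3.pos, by omega⟩, h3⟩
  rw [e]
  exact h

theorem log_le_rpow (s δ : ℝ) (hs : 0 < s) (hδ : 0 < δ) : ∀ᶠ t : ℝ in atTop, Real.log t ≤ δ * t ^ s := by
  have := (isLittleO_log_rpow_atTop hs).bound hδ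
  filter_upwards [this, eventually_ge_atTop 1] with t ht ht1
  rw [Real.norm_eq_abs, Real.norm_eq_abs, abs_of_nonneg (Real.log_nonneg ht1),
    abs_of_nonneg (Real.rpow_nonneg (by linarith) _)] at ht
  exact ht

/-- choice of `M` -/
theorem exists_M (b : ℕ) (hb : 2 ≤ b) (w t : ℝ) (hw : 1 ≤ w) (ht : w * (b : ℝ) ^ 2 ≤ t) :
    ∃ M : ℕ, w * (b : ℝ) ^ (M + 1) ≤ t ∧ t / (w * (b : ℝ) ^ 2) ≤ (b : ℝ) ^ M ∧ (b : ℝ) ^ M ≤ t := by
  have hb1 : 1 < b := by omega
  have hb2 : (2 : ℝ) ≤ b := by exact_mod_cast hb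
  have hw0 : 0 < w := by linarith
  have ht0 : 0 < t := by
    have : 0 < w * (b : ℝ) ^ 2 := by positivity
    linarith
  obtain ⟨n₀, hn₀⟩ : ∃ n₀ : ℕ, n₀ = ⌊t / w⌋₊ := ⟨_, rfl⟩
  have hn₀l : (n₀ : ℝ) ≤ t / w := by rw [hn₀]; exact Nat.floor_le (by positivity)
  have hn₀u : t / w < n₀ + 1 := by rw [hn₀]; exact Nat.lt_floor_add_one _
  have hn₀1 : b ≤ n₀ := by
    rw [hn₀, Nat.le_floor_iff (by positivity), le_div_iff₀ hw0]
    nlinarith
  have hlogpos := Nat.log_pos hb1 hn₀1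
  obtain ⟨M, hM⟩ : ∃ M, Nat.log b n₀ = M + 1 := ⟨Nat.log b n₀ - 1, by omega⟩
  have hM1 : (b : ℝ) ^ (M + 1) ≤ t / w := by
    have h1 := Nat.pow_log_le_self b (x := n₀) (by omega)
    rw [hM] at h1
    have h2 : ((b ^ (M + 1) : ℕ) : ℝ) ≤ n₀ := by exact_mod_cast h1
    rw [Nat.cast_pow] at h2
    exact h2.trans hn₀l
  have hM2 : t / w ≤ (b : ℝ) ^ (M + 2) := by
    have h1 := Nat.lt_pow_succ_log_self hb1 n₀
    rw [hM] at h1
    have h2 : ((n₀ + 1 : ℕ) : ℝ) ≤ ((b ^ (M + 1).succ : ℕ) : ℝ) := by exact_mod_cast h1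
    rw [Nat.cast_pow] at h2
    push_cast at h2
    exact hn₀u.le.trans h2
  refine ⟨M, ?_, ?_, ?_⟩
  · rw [le_div_iff₀ hw0] at hM1
    linarith
  · rw [div_le_iff₀ (by positivity)]
    rw [div_le_iff₀ hw0] at hM2
    calc t ≤ (b : ℝ) ^ (M + 2) * w := hM2
      _ = _ := by ring
  · calc (b : ℝ) ^ M ≤ (b : ℝ) ^ (M + 1) := pow_le_pow_right₀ (by linarith) (Nat.le_succ M)
      _ ≤ t / w := hM1
      _ ≤ t := div_le_self ht0.le hw

/-- the weight of `Φ` in terms of `t = log Y` -/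
theorem weight_calc {b M : ℕ} {ρ κ W t σ : ℝ} (hW : 0 < W) (ht : 0 < t) (hκ : 0 ≤ κ)
    (hρ0 : 0 < ρ) (hσ : (b : ℝ) ^ M = Real.exp (M * σ)) (hρ : σ * κ ≤ Real.log ρ)
    (hM : t / W ≤ (b : ℝ) ^ M) :
    1 / W * (t / W) ^ κ / (432 * (1 + 6 * M)) ≤ (b : ℝ) ^ M * ρ ^ M / (432 * t * (1 + 6 * M)) := by
  have hρM : (t / W) ^ κ ≤ ρ ^ M := by
    have h1 : Real.exp (M * (σ * κ)) ≤ ρ ^ M := by
      calc Real.exp (M * (σ * κ)) ≤ Real.exp (M * Real.log ρ) :=
            Real.exp_le_exp.mpr (mul_le_mul_of_nonneg_left hρ (Nat.cast_nonneg M))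
        _ = ρ ^ M := by rw [mul_comm, Real.exp_mul, Real.exp_log hρ0, Real.rpow_natCast]
    refine le_trans ?_ h1
    have h2 : Real.exp (M * (σ * κ)) = ((b : ℝ) ^ M) ^ κ := by
      rw [hσ, ← Real.exp_mul, mul_assoc]
    rw [h2]
    exact Real.rpow_le_rpow (by positivity) hM hκ
  rw [div_le_div_iff₀ (by positivity) (by positivity)]
  have h3 : 1 / W * (t / W) ^ κ * t ≤ (b : ℝ) ^ M * ρ ^ M := by
    calc 1 / W * (t / W) ^ κ * t = (t / W) * (t / W) ^ κ := by ring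
      _ ≤ (b : ℝ) ^ M * ρ ^ M := mul_le_mul hM hρM (by positivity) (by positivity)
  have h4 : (0 : ℝ) ≤ 432 * (1 + 6 * M) := by positivity
  have h5 := mul_le_mul_of_nonneg_right h3 h4
  calc 1 / W * (t / W) ^ κ * (432 * t * (1 + 6 * M)) = 1 / W * (t / W) ^ κ * t * (432 * (1 + 6 * M)) := by ring
    _ ≤ _ := h5

/-- the conditions of the sieve -/
theorem sieve_cond {c C₁ t S V a η : ℝ} {Z Y L : ℕ} (hc : 0 < c) (ht1 : 1 ≤ t)
    (hYexp : (Y : ℝ) = Real.exp t) (hlogZ : Real.log Z ≤ 2 * t) (hZ1 : (1 : ℝ) ≤ Z)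
    (hS0 : 0 ≤ S) (hS : S ≤ Real.log t + Real.log 2 + C₁) (hVl : c / (2 * t) ≤ V)
    (ha : t ^ (η / 2) = a) (ha19 : 19 ≤ a) (g1 : Real.log t ≤ a)
    (htK : Real.log 16 + Real.log 2 + C₁ + Real.log (2 / c) ≤ t)
    (f4 : (2.72 * Real.log 2 + 2.72 * C₁ - 1 - Real.log (c / 8)) / 0.28 ≤ Real.log t)
    (hL : Real.exp (t ^ (1 + η)) ≤ L) :
    ∃ J : ℕ, Odd J ∧ Real.exp (Real.exp 1 * S - J) ≤ V / 4 ∧
      4 * ((2 * Y ^ 2 : ℕ) : ℝ) * (1 + (Z : ℝ) ^ J * Real.exp S) ≤ V * L := by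
  have ht0 : 0 < t := by linarith
  have hlt0 : 0 ≤ Real.log t := Real.log_nonneg ht1
  have hV0 : 0 < V := lt_of_lt_of_le (by positivity) hVl
  have hlogZ0 : 0 ≤ Real.log Z := Real.log_nonneg hZ1
  obtain ⟨J, hJ⟩ : ∃ J : ℕ, J = 2 * ⌈2 * Real.log t⌉₊ + 1 := ⟨_, rfl⟩
  have hJl : 4 * Real.log t + 1 ≤ J := by
    rw [hJ]
    push_cast
    have := Nat.le_ceil (2 * Real.log t)
    linarith
  have hJu : (J : ℝ) ≤ 4 * Real.log t + 3 := by
    rw [hJ]
    push_cast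
    have := Nat.ceil_lt_add_one (show 0 ≤ 2 * Real.log t by linarith)
    linarith
  refine ⟨J, ⟨_, hJ⟩, ?_, ?_⟩
  · have h1 : c / (8 * t) ≤ V / 4 := by
      have : c / (8 * t) = c / (2 * t) / 4 := by field_simp; norm_num
      rw [this]
      linarith
    refine le_trans ?_ h1
    rw [← Real.le_log_iff_exp_le (by positivity)]
    have e4 : Real.log (c / (8 * t)) = Real.log (c / 8) - Real.log t := by
      rw [← Real.log_div (by positivity) (by positivity)]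
      congr 1
      field_simp
    rw [e4]
    have he : Real.exp 1 ≤ 2.72 := by
      have := Real.exp_one_lt_d9
      linarith
    have h2 : Real.exp 1 * S ≤ 2.72 * (Real.log t + Real.log 2 + C₁) :=
      mul_le_mul he hS hS0 (by norm_num)
    rw [div_le_iff₀ (by norm_num)] at f4
    linarith
  · have h1 : (1 : ℝ) ≤ (Z : ℝ) ^ J * Real.exp S := by
      have h11 : (1 : ℝ) ≤ (Z : ℝ) ^ J := one_le_pow₀ hZ1
      have h12 : 1 ≤ Real.exp S := Real.one_le_exp hS0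
      nlinarith
    have h2 : (Z : ℝ) ^ J * Real.exp S ≤ Real.exp ((4 * Real.log t + 3) * (2 * t) + (Real.log t + Real.log 2 + C₁)) := by
      rw [Real.exp_add]
      refine mul_le_mul ?_ (Real.exp_le_exp.mpr hS) (Real.exp_pos _).le (Real.exp_pos _).le
      have : (Z : ℝ) ^ J = Real.exp (J * Real.log Z) := by
        rw [Real.exp_nat_mul, Real.exp_log (by linarith)]
      rw [this]
      refine Real.exp_le_exp.mpr (mul_le_mul hJu hlogZ hlogZ0 (by linarith))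
    have h3 : 4 * ((2 * Y ^ 2 : ℕ) : ℝ) * (1 + (Z : ℝ) ^ J * Real.exp S) ≤
        Real.exp (Real.log 16 + 2 * t + ((4 * Real.log t + 3) * (2 * t) + (Real.log t + Real.log 2 + C₁))) := by
      rw [Real.exp_add, Real.exp_add, Real.exp_log (by norm_num)]
      have h31 : ((2 * Y ^ 2 : ℕ) : ℝ) = 2 * Real.exp (2 * t) := by
        push_cast
        rw [hYexp, ← Real.exp_nat_mul]
        push_cast
        ring
      rw [h31]
      have h32 : 0 < Real.exp (2 * t) := Real.exp_pos _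
      calc 4 * (2 * Real.exp (2 * t)) * (1 + (Z : ℝ) ^ J * Real.exp S) ≤
          4 * (2 * Real.exp (2 * t)) * (2 * ((Z : ℝ) ^ J * Real.exp S)) := by
            refine mul_le_mul_of_nonneg_left ?_ (by positivity)
            linarith
        _ = 16 * Real.exp (2 * t) * ((Z : ℝ) ^ J * Real.exp S) := by ring
        _ ≤ _ := mul_le_mul_of_nonneg_left h2 (by positivity)
    have h4 : Real.exp (-(Real.log (2 / c)) - Real.log t + t ^ (1 + η)) ≤ V * L := by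
      have h41 : Real.exp (-(Real.log (2 / c)) - Real.log t) = c / (2 * t) := by
        rw [Real.exp_sub, Real.exp_neg, Real.exp_log (by positivity), Real.exp_log ht0]
        field_simp
      rw [Real.exp_add, h41]
      exact mul_le_mul hVl hL (Real.exp_pos _).le hV0.le
    refine h3.trans (le_trans (Real.exp_le_exp.mpr ?_) h4)
    have e5 : t ^ (1 + η) = t * (a * a) := by
      rw [← ha, ← Real.rpow_add ht0, add_halves, Real.rpow_add ht0, Real.rpow_one]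
    rw [e5]
    have h5 : 8 * t * Real.log t ≤ 8 * t * a := mul_le_mul_of_nonneg_left g1 (by positivity)
    have h6 : Real.log t ≤ t := by
      have := Real.log_le_sub_one_of_pos ht0
      linarith
    have h7 : t * (19 * a) ≤ t * (a * a) := by
      refine mul_le_mul_of_nonneg_left ?_ ht0.le
      nlinarith
    have h8 : 19 * t ≤ t * a := by nlinarith
    nlinarith

theorem final_calc {c t W κ η a K₁ V Sg : ℝ} {M : ℕ} (hc : 0 < c) (ht0 : 0 < t) (hW : 0 < W)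
    (hκ : κ = 1 - del - η / 2) (ha : t ^ (η / 2) = a) (hK₁ : K₁ = c / 4 * (1 / W) * (1 / W) ^ κ / 432)
    (hVl : c / (2 * t) ≤ V) (hSg1 : 1 / W * (t / W) ^ κ / (432 * (1 + 6 * M)) ≤ Sg)
    (haK : 2 / K₁ ≤ a) (g2 : Real.log t ≤ K₁ / 24 * a) (hM : (M : ℝ) ≤ 2 * Real.log t) :
    t ^ (-(del + η)) ≤ V / 2 * Sg := by
  have hV0 : 0 < V := lt_of_lt_of_le (by positivity) hVl
  have hK₁0 : 0 < K₁ := by rw [hK₁]; positivity
  have h1 : c / (4 * t) * (1 / W * (t / W) ^ κ / (432 * (1 + 6 * M))) ≤ V / 2 * Sg := by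
    refine mul_le_mul ?_ hSg1 (by positivity) (by positivity)
    have : c / (4 * t) = c / (2 * t) / 2 := by field_simp; norm_num
    rw [this]
    linarith
  refine le_trans ?_ h1
  have e6 : (t / W) ^ κ = t ^ κ * (1 / W) ^ κ := by
    rw [← Real.mul_rpow ht0.le (by positivity)]
    ring_nf
  have e7 : c / (4 * t) * (1 / W * (t / W) ^ κ / (432 * (1 + 6 * M))) = K₁ * (t ^ κ / t) / (1 + 6 * M) := by
    rw [e6, hK₁]
    field_simp
  rw [e7, le_div_iff₀ (by positivity)]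
  have e8 : t ^ κ / t = t ^ (-(del + η)) * a := by
    rw [← ha, ← Real.rpow_add ht0]
    nth_rewrite 2 [← Real.rpow_one t]
    rw [← Real.rpow_sub ht0]
    congr 1
    rw [hκ]
    ring
  rw [e8]
  have h2 : (1 : ℝ) + 6 * M ≤ K₁ * a := by
    have h3 : 1 ≤ K₁ / 2 * a := by
      rw [div_le_iff₀ hK₁0] at haK
      linarith
    linarith
  have h4 : 0 ≤ t ^ (-(del + η)) := Real.rpow_nonneg ht0.le _
  calc t ^ (-(del + η)) * (1 + 6 * M) ≤ t ^ (-(del + η)) * (K₁ * a) := mul_le_mul_of_nonneg_left h2 h4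
    _ = _ := by ring

theorem mult_low_aux (η : ℝ) (hη : 0 < η) (hη1 : η ≤ 1) : ∃ t₀ : ℝ, ∀ Y : ℕ, t₀ ≤ Real.log Y → ∀ L : ℕ,
    Real.exp ((Real.log Y) ^ (1 + η)) ≤ L → ∀ A : ℕ,
    (Real.log Y) ^ (-(del + η)) * L ≤ ((MM Y A L).card : ℝ) := by
  obtain ⟨C₀, hC₀, Y₁, hY₁, hphi⟩ := phi_low
  obtain ⟨r, hr1, hr2, hr3⟩ := exists_r η C₀ hη hC₀
  obtain ⟨C₁, hC₁, hrs⟩ := rs_upper
  obtain ⟨c, hc, hV⟩ := V_lower
  have hl2 := log2_pos
  have hl2' := Real.log_two_gt_d9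
  have hr0 : (0 : ℝ) < r := by exact_mod_cast hr1
  have hr1' : (1 : ℝ) ≤ r := by exact_mod_cast hr1
  obtain ⟨κ, hκ⟩ : ∃ κ : ℝ, κ = 1 - del - η / 2 := ⟨_, rfl⟩
  have hκ0 : 0 ≤ κ := by
    have := kappa_ge
    rw [hκ]; linarith
  obtain ⟨W, hW⟩ : ∃ W : ℝ, W = 4 * r * ((2 ^ r : ℕ) : ℝ) ^ 2 := ⟨_, rfl⟩
  have hW0 : 0 < W := by rw [hW]; positivity
  obtain ⟨K₁, hK₁⟩ : ∃ K₁ : ℝ, K₁ = c / 4 * (1 / W) * (1 / W) ^ κ / 432 := ⟨_, rfl⟩
  have hK₁0 : 0 < K₁ := by rw [hK₁]; positivity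
  obtain ⟨K₂, hK₂⟩ : ∃ K₂ : ℝ, K₂ = Real.log 16 + Real.log 2 + C₁ + Real.log (2 / c) := ⟨_, rfl⟩
  have hρ0 : 0 < (r * Real.log 2 - C₀) ^ r / (r.factorial : ℝ) := by
    have : 0 < r * Real.log 2 - C₀ := by linarith
    positivity
  have ev1 := log_le_rpow (η / 2) (min 1 (K₁ / 24)) (by positivity) (by positivity)
  have ev2 : ∀ᶠ t : ℝ in atTop, max 19 (2 / K₁) ≤ t ^ (η / 2) :=
    (tendsto_rpow_atTop (by positivity : 0 < η / 2)).eventually_ge_atTop _
  have ev3 : ∀ᶠ t : ℝ in atTop, max (max K₂ W) (max 1 (Real.log Y₁)) ≤ t := eventually_ge_atTop _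
  have ev4 : ∀ᶠ t : ℝ in atTop,
      (2.72 * Real.log 2 + 2.72 * C₁ - 1 - Real.log (c / 8)) / 0.28 ≤ Real.log t :=
    Real.tendsto_log_atTop.eventually_ge_atTop _
  obtain ⟨t₀, ht₀⟩ := eventually_atTop.1 (ev1.and (ev2.and (ev3.and ev4)))
  refine ⟨t₀, fun Y hY L hL A => ?_⟩
  obtain ⟨t, ht⟩ : ∃ t : ℝ, t = Real.log Y := ⟨_, rfl⟩
  rw [← ht] at hY hL ⊢
  obtain ⟨f1, f2, f3, f4⟩ := ht₀ t hY
  obtain ⟨a, ha⟩ : ∃ a : ℝ, t ^ (η / 2) = a := ⟨_, rfl⟩
  rw [ha] at f1 f2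
  have ha19 : 19 ≤ a := (le_max_left _ _).trans f2
  have haK : 2 / K₁ ≤ a := (le_max_right _ _).trans f2
  have htK : K₂ ≤ t := ((le_max_left _ _).trans (le_max_left _ _)).trans f3
  have htW : W ≤ t := ((le_max_right _ _).trans (le_max_left _ _)).trans f3
  have ht1 : 1 ≤ t := ((le_max_left _ _).trans (le_max_right _ _)).trans f3
  have htY : Real.log Y₁ ≤ t := ((le_max_right _ _).trans (le_max_right _ _)).trans f3
  have ht0 : 0 < t := by linarith
  have ha0 : 0 < a := by linarith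
  have g1 : Real.log t ≤ a := f1.trans (by
    have := min_le_left 1 (K₁ / 24)
    nlinarith)
  have g2 : Real.log t ≤ K₁ / 24 * a := f1.trans (by
    have := min_le_right 1 (K₁ / 24)
    nlinarith)
  -- size of `Y`
  have hY0 : (0 : ℝ) < Y := by
    rcases Nat.eq_zero_or_pos Y with h | h
    · exfalso
      rw [ht, h] at ht1
      simp at ht1
      linarith
    · exact_mod_cast h
  have hYexp : (Y : ℝ) = Real.exp t := by rw [ht, Real.exp_log hY0]
  have hY2 : (2 : ℝ) ≤ Y := by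
    rw [hYexp]
    have := Real.add_one_le_exp t
    linarith
  have hYY₁ : Y₁ ≤ Y := by
    rw [hYexp, ← Real.exp_log (by linarith : 0 < Y₁)]
    exact Real.exp_le_exp.mpr htY
  obtain ⟨M, hM1, hM2, hM3⟩ := exists_M (2 ^ r) (by
    calc 2 = 2 ^ 1 := by norm_num
      _ ≤ 2 ^ r := Nat.pow_le_pow_right (by norm_num) hr1) (4 * r) t (by linarith) (by rw [← hW]; exact htW)
  rw [← hW] at hM2
  have hσ : (((2 ^ r : ℕ) : ℝ)) ^ M = Real.exp (M * (r * Real.log 2)) := by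
    push_cast
    rw [Real.exp_nat_mul, Real.exp_nat_mul, Real.exp_log (by norm_num)]
  have hMlog : (M : ℝ) ≤ 2 * Real.log t := by
    rw [hσ] at hM3
    have h2 := Real.log_le_log (Real.exp_pos _) hM3
    rw [Real.log_exp] at h2
    have h4 : (M : ℝ) * (1 / 2) ≤ M * (r * Real.log 2) :=
      mul_le_mul_of_nonneg_left (by nlinarith) (Nat.cast_nonneg M)
    linarith
  obtain ⟨Φ, hΦ1, hΦ2, hΦ3⟩ := hphi r M Y hr1 hr2 hYY₁ (by
    rw [← ht, pow_mul]
    push_cast at hM1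
    exact hM1)
  rw [← ht] at hΦ3
  have hSg1 : 1 / W * (t / W) ^ κ / (432 * (1 + 6 * M)) ≤ ∑ N ∈ Φ, 1 / (N : ℝ) := by
    refine le_trans ?_ hΦ3
    refine (weight_calc hW0 ht0 hκ0 hρ0 hσ (by rw [hκ]; exact hr3) hM2).trans (le_of_eq ?_)
    have e : (2 : ℝ) ^ (M * r) = (((2 ^ r : ℕ) : ℝ)) ^ M := by
      push_cast
      rw [← pow_mul, mul_comm]
    rw [e, div_pow]
    field_simp
  -- the sieve
  have hYnat : 2 ≤ Y := by exact_mod_cast hY2
  have hZr : ((2 * Y : ℕ) : ℝ) = 2 * Y := by push_cast; rfl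
  have hlogZ : Real.log ((2 * Y : ℕ) : ℝ) ≤ 2 * t := by
    rw [hZr, Real.log_mul (by norm_num) hY0.ne', ← ht]
    have := Real.log_two_lt_d9
    linarith
  have hlogZ0 : 0 < Real.log ((2 * Y : ℕ) : ℝ) := Real.log_pos (by exact_mod_cast (by omega : 1 < 2 * Y))
  have hVl : c / (2 * t) ≤ ∏ p ∈ pr 0 (2 * Y), (1 - 1 / (p : ℝ)) := by
    refine le_trans ?_ (hV (2 * Y) (by omega))
    exact div_le_div_of_nonneg_left hc.le hlogZ0 hlogZ
  have hS : rs (pr 0 (2 * Y)) ≤ Real.log t + Real.log 2 + C₁ := by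
    refine (hrs (2 * Y) (by omega)).trans ?_
    have h1 : Real.log (Real.log ((2 * Y : ℕ) : ℝ)) ≤ Real.log (2 * t) := Real.log_le_log hlogZ0 hlogZ
    rw [Real.log_mul (by norm_num) ht0.ne'] at h1
    linarith
  have hS0 : 0 ≤ rs (pr 0 (2 * Y)) := by
    unfold rs
    exact sum_nonneg fun p _ => by positivity
  obtain ⟨J, hJodd, hcond1, hcond2⟩ := sieve_cond hc ht1 hYexp hlogZ
    (by exact_mod_cast (by omega : 1 ≤ 2 * Y)) hS0 hS hVl ha ha19 g1 (by rw [← hK₂]; exact htK) f4 hL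
  have hmain := mult_abs (Φ := Φ) (Z := 2 * Y) (B := 2 * Y ^ 2) (Y := Y) (J := J) (L := L) (by omega)
    (fun N hN => hΦ1 N hN) hΦ2 hJodd hcond1 hcond2 A
  refine le_trans ?_ hmain
  have hL0 : (0 : ℝ) ≤ L := Nat.cast_nonneg L
  have hfin := final_calc hc ht0 hW0 hκ ha hK₁ hVl hSg1 haK g2 hMlog
  have := mul_le_mul_of_nonneg_right hfin hL0
  linarith

open scoped Classical in
/-- **Lower bound**: every interval of length at least `exp((log Y)^(1+η))` contains many integers with a divisor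
in `(Y, 1.9 Y]`. -/
theorem mult_low (η : ℝ) (hη : 0 < η) : ∃ Y0 : ℕ, ∀ Y : ℕ, Y0 ≤ Y → ∀ N : ℕ,
    Real.exp ((Real.log Y) ^ (1 + η)) ≤ N → ∀ A : ℕ,
    (Real.log Y) ^ (-(del + η)) * N ≤
      (((Ioc A (A + N)).filter (fun m => ∃ k, Y < k ∧ 10 * k ≤ 19 * Y ∧ k ∣ m)).card : ℝ) := by
  obtain ⟨t₀, ht₀⟩ := mult_low_aux (min η 1) (lt_min hη one_pos) (min_le_right _ _)
  refine ⟨⌈Real.exp (max t₀ 1)⌉₊, fun Y hY N hN A => ?_⟩
  have h1 : Real.exp (max t₀ 1) ≤ Y := Nat.ceil_le.1 hY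
  have h2 : max t₀ 1 ≤ Real.log Y := by
    have := Real.log_le_log (Real.exp_pos _) h1
    rwa [Real.log_exp] at this
  have h3 : 1 ≤ Real.log Y := (le_max_right _ _).trans h2
  have h4 := ht₀ Y ((le_max_left _ _).trans h2) N ?_ A
  · refine le_trans (mul_le_mul_of_nonneg_right ?_ (Nat.cast_nonneg N)) h4
    refine Real.rpow_le_rpow_of_exponent_le h3 ?_
    have := min_le_left η 1
    linarith
  · refine le_trans (Real.exp_le_exp.mpr (Real.rpow_le_rpow_of_exponent_le h3 ?_)) hN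
    have := min_le_left η 1
    linarith

end Pool.MedDiv
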