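import Pool.Agent.MedDiv.Defs
import Pool.Agent.SWP.MertP
import Pool.Agent.RSL.MertS
import Pool.Agent.Lib.PNT

/-!
# MedDiv / Blk: prime sums used for the lower bound
-/

set_option autoImplicit false

namespace Pool.MedDiv

open Finset

/-- primes in a window of ratio at most `4` -/
theorem short_up {F : Finset ℕ} {q₀ : ℝ} (hq : 2 ≤ q₀) (hF : ∀ q ∈ F, q.Prime ∧ q₀ ≤ q ∧ (q : ℝ) ≤ 4 * q₀) :
    ∑ q ∈ F, 1 / (q : ℝ) ≤ 6 / Real.log q₀ := by
  have hq0 : 0 < q₀ := by linarith
  have hl : 0 < Real.log q₀ := Real.log_pos (by linarith)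
  have h1 : ∑ q ∈ F, Real.log q ≤ Real.log 4 * (4 * q₀) := by
    refine le_trans ?_ (Chebyshev.theta_le_log4_mul_x (by positivity : (0 : ℝ) ≤ 4 * q₀))
    rw [Chebyshev.theta]
    refine sum_le_sum_of_subset_of_nonneg ?_ ?_
    · intro q h
      rw [mem_filter, mem_Ioc]
      refine ⟨⟨(hF q h).1.pos, ?_⟩, (hF q h).1⟩
      rw [Nat.le_floor_iff (by positivity)]
      exact (hF q h).2.2
    · intro p hp _
      rw [mem_filter] at hp
      exact Real.log_nonneg (by exact_mod_cast hp.2.one_le)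
  have h2 : ∑ q ∈ F, 1 / (q : ℝ) ≤ ∑ q ∈ F, Real.log q / (q₀ * Real.log q₀) := by
    refine sum_le_sum fun q h => ?_
    obtain ⟨hp, hq1, -⟩ := hF q h
    have hqp : (0 : ℝ) < q := by exact_mod_cast hp.pos
    rw [div_le_div_iff₀ hqp (by positivity), one_mul]
    have h3 : Real.log q₀ ≤ Real.log q := Real.log_le_log hq0 hq1
    calc q₀ * Real.log q₀ ≤ q * Real.log q := mul_le_mul hq1 h3 hl.le hqp.le
      _ = _ := mul_comm _ _
  have h4 : Real.log 4 ≤ 1.4 := by
    have h5 : Real.log 4 = 2 * Real.log 2 := by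
      rw [show (4 : ℝ) = 2 ^ 2 by norm_num, Real.log_pow]
      norm_num
    have := Real.log_two_lt_d9
    rw [h5]
    linarith
  rw [← sum_div] at h2
  refine h2.trans ?_
  rw [div_le_div_iff₀ (by positivity) hl]
  nlinarith [mul_nonneg hq0.le hl.le]

/-- primes in `(X, 1.9 X]` -/
theorem win_low : ∃ X₀ : ℝ, 2 ≤ X₀ ∧ ∀ X : ℝ, X₀ ≤ X → ∀ F : Finset ℕ,
    (∀ p : ℕ, p.Prime → X < p → (p : ℝ) ≤ 19 / 10 * X → p ∈ F) → 1 / (6 * Real.log X) ≤ ∑ p ∈ F, 1 / (p : ℝ) := by
  have h := Pool.Agent.Lib.PNT.theta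
  rw [Metric.tendsto_atTop] at h
  obtain ⟨x₀, hx₀⟩ := h (1 / 20) (by norm_num)
  refine ⟨max x₀ 4, (by norm_num : (2 : ℝ) ≤ 4).trans (le_max_right _ _), fun X hX F hF => ?_⟩
  have hX4 : 4 ≤ X := (le_max_right _ _).trans hX
  have hX0 : 0 < X := by linarith
  have hXx : x₀ ≤ X := (le_max_left _ _).trans hX
  have e1 := hx₀ X hXx
  have e2 := hx₀ (19 / 10 * X) (by linarith)
  rw [Real.dist_eq, abs_lt] at e1 e2
  have t1 : Chebyshev.theta X ≤ 1.05 * X := by
    have : Chebyshev.theta X / X ≤ 1.05 := by linarith [e1.2]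
    rwa [div_le_iff₀ hX0] at this
  have t2 : 0.95 * (19 / 10 * X) ≤ Chebyshev.theta (19 / 10 * X) := by
    have : 0.95 ≤ Chebyshev.theta (19 / 10 * X) / (19 / 10 * X) := by linarith [e2.1]
    rwa [le_div_iff₀ (by positivity)] at this
  have hle : ⌊X⌋₊ ≤ ⌊19 / 10 * X⌋₊ := Nat.floor_le_floor (by linarith)
  have hsum : ∑ q ∈ (Ioc ⌊X⌋₊ ⌊19 / 10 * X⌋₊).filter Nat.Prime, Real.log q =
      Chebyshev.theta (19 / 10 * X) - Chebyshev.theta X := by
    rw [Chebyshev.theta, Chebyshev.theta]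
    rw [Finset.sum_filter, Finset.sum_filter, Finset.sum_filter]
    have := Finset.sum_Ioc_consecutive (fun p : ℕ => if p.Prime then Real.log p else 0)
      (Nat.zero_le ⌊X⌋₊) hle
    rw [← this]
    ring
  have hlX : 0 < Real.log X := Real.log_pos (by linarith)
  have hl2 : Real.log (19 / 10 * X) ≤ 2 * Real.log X := by
    have : Real.log (19 / 10 * X) ≤ Real.log (X * X) := Real.log_le_log (by positivity) (by nlinarith)
    have e := Real.log_mul hX0.ne' hX0.ne'
    linarith
  have hlow : (∑ q ∈ (Ioc ⌊X⌋₊ ⌊19 / 10 * X⌋₊).filter Nat.Prime, Real.log q) / (19 / 10 * X * (2 * Real.log X)) ≤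
      ∑ p ∈ F, 1 / (p : ℝ) := by
    rw [Finset.sum_div]
    calc _ ≤ ∑ q ∈ (Ioc ⌊X⌋₊ ⌊19 / 10 * X⌋₊).filter Nat.Prime, 1 / (q : ℝ) := by
          refine Finset.sum_le_sum fun q hq => ?_
          rw [Finset.mem_filter, Finset.mem_Ioc] at hq
          have hq0 : (0 : ℝ) < q := by exact_mod_cast hq.2.pos
          have hq1 : (q : ℝ) ≤ 19 / 10 * X := (Nat.le_floor_iff (by positivity)).1 hq.1.2
          have hq2 : Real.log q ≤ 2 * Real.log X := (Real.log_le_log hq0 hq1).trans hl2
          rw [div_le_div_iff₀ (by positivity) hq0, one_mul]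
          have hlq : 0 ≤ Real.log q := Real.log_nonneg (by exact_mod_cast hq.2.one_le)
          calc Real.log q * q ≤ 2 * Real.log X * (19 / 10 * X) :=
                mul_le_mul hq2 hq1 hq0.le (by positivity)
            _ = _ := by ring
      _ ≤ _ := by
          refine sum_le_sum_of_subset_of_nonneg ?_ fun _ _ _ => by positivity
          intro q hq
          rw [Finset.mem_filter, Finset.mem_Ioc] at hq
          refine hF q hq.2 ?_ ((Nat.le_floor_iff (by positivity)).1 hq.1.2)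
          exact (Nat.floor_lt hX0.le).1 hq.1.1
  refine le_trans ?_ hlow
  rw [hsum, div_le_div_iff₀ (by positivity) (by positivity)]
  have h9 : 0.755 * X ≤ Chebyshev.theta (19 / 10 * X) - Chebyshev.theta X := by linarith
  have h10 := mul_le_mul_of_nonneg_right h9 hlX.le
  nlinarith [mul_pos hX0 hlX]

/-- close values in a set of primes above `e^u` -/
theorem close_up {F : Finset ℕ} {u : ℝ} (hu : 1 ≤ u) (hF : ∀ q ∈ F, q.Prime ∧ Real.exp u ≤ q)
    {A B : ℕ} (hAB : ∀ q ∈ F, 10 * A < 19 * (B * q) ∧ 10 * (B * q) < 19 * A) :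
    ∑ q ∈ F, 1 / (q : ℝ) ≤ 6 / u := by
  rcases F.eq_empty_or_nonempty with h0 | hne
  · rw [h0]; simp; positivity
  · obtain ⟨m, hm, hmin⟩ := exists_min_image F (fun q => q) hne
    have hm1 := hF m hm
    have hexp : (2 : ℝ) ≤ Real.exp u := by
      have := Real.add_one_le_exp u
      linarith
    have hm2 : (2 : ℝ) ≤ m := hexp.trans hm1.2
    have hlog : u ≤ Real.log m := by
      have := Real.log_le_log (Real.exp_pos _) hm1.2
      rwa [Real.log_exp] at this
    refine (short_up hm2 fun q hq => ⟨(hF q hq).1, ?_, ?_⟩).trans ?_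
    · exact_mod_cast hmin q hq
    · have h1 := (hAB q hq).2
      have h2 := (hAB m hm).1
      have hB : 0 < B := by
        rcases Nat.eq_zero_or_pos B with h | h
        · subst h; simp at h2
        · exact h
      have h3 : B * (100 * q) < B * (361 * m) := by
        calc B * (100 * q) = 10 * (10 * (B * q)) := by ring
          _ < 10 * (19 * A) := by omega
          _ = 19 * (10 * A) := by ring
          _ < 19 * (19 * (B * m)) := by omega
          _ = _ := by ring
      have h4 : 100 * q < 361 * m := lt_of_mul_lt_mul_left h3 (Nat.zero_le B)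
      have h5 : q ≤ 4 * m := by omega
      exact_mod_cast h5
    · exact div_le_div_of_nonneg_left (by norm_num) (by linarith) hlog

end Pool.MedDiv
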