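import Pool.Agent.MedDiv.Defs

/-!
# MedDiv / Brun: truncated inclusion–exclusion for `(1-w)^{ω_Q(m)}` in a short interval

`sum_pow_le` (`J` even), `brun_low` (`w = 1`, `J` odd), `card_om_ge` (large values of `ω_Q`).
-/

set_option autoImplicit false

namespace Pool.MedDiv

open Finset

/-! ### Bonferroni for real `w` -/

/-- truncated binomial sum -/
noncomputable def bt (w : ℝ) (n J : ℕ) : ℝ := ∑ j ∈ range J, (-w) ^ j * (n.choose j : ℝ)

theorem bt_zero_right (w : ℝ) (n : ℕ) : bt w n 0 = 0 := by simp [bt]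

theorem bt_succ (w : ℝ) (n J : ℕ) : bt w (n + 1) (J + 1) = bt w n (J + 1) - w * bt w n J := by
  unfold bt
  rw [sum_range_succ', sum_range_succ' (fun j => (-w) ^ j * (n.choose j : ℝ)), mul_sum]
  have h : ∀ j ∈ range J, (-w) ^ (j + 1) * ((n + 1).choose (j + 1) : ℝ) =
      (-w) ^ (j + 1) * (n.choose (j + 1) : ℝ) - w * ((-w) ^ j * (n.choose j : ℝ)) := by
    intro j _
    rw [Nat.choose_succ_succ]
    push_cast
    ring
  rw [sum_congr rfl h, sum_sub_distrib]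
  simp
  ring

theorem bt_sign (w : ℝ) (hw0 : 0 ≤ w) (hw1 : w ≤ 1) (n : ℕ) :
    ∀ J : ℕ, 0 ≤ (-1) ^ J * ((1 - w) ^ n - bt w n J) := by
  induction n with
  | zero =>
    intro J
    rcases J with _ | J
    · simp [bt]
    · have : bt w 0 (J + 1) = 1 := by
        unfold bt
        rw [sum_range_succ']
        simp
      rw [this]
      simp
  | succ n ih =>
    intro J
    rcases J with _ | J
    · rw [bt_zero_right]
      have : 0 ≤ (1 - w) ^ (n + 1) := pow_nonneg (by linarith) _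
      simpa using this
    · rw [bt_succ]
      have h1 := ih (J + 1)
      have h2 := ih J
      have e : (-1 : ℝ) ^ (J + 1) * ((1 - w) ^ (n + 1) - (bt w n (J + 1) - w * bt w n J)) =
          (-1) ^ (J + 1) * ((1 - w) ^ n - bt w n (J + 1)) + w * ((-1) ^ J * ((1 - w) ^ n - bt w n J)) := by
        ring
      rw [e]
      positivity

theorem bon_even (w : ℝ) (hw0 : 0 ≤ w) (hw1 : w ≤ 1) (n J : ℕ) (hJ : Even J) :
    (1 - w) ^ n ≤ ∑ j ∈ range (J + 1), (-w) ^ j * (n.choose j : ℝ) := by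
  have h := bt_sign w hw0 hw1 n (J + 1)
  have e : (-1 : ℝ) ^ (J + 1) = -1 := (Even.add_one hJ).neg_one_pow
  rw [e] at h
  unfold bt at h
  linarith

theorem bon_odd (w : ℝ) (hw0 : 0 ≤ w) (hw1 : w ≤ 1) (n J : ℕ) (hJ : Odd J) :
    ∑ j ∈ range (J + 1), (-w) ^ j * (n.choose j : ℝ) ≤ (1 - w) ^ n := by
  have h := bt_sign w hw0 hw1 n (J + 1)
  have e : (-1 : ℝ) ^ (J + 1) = 1 := (Odd.add_one hJ).neg_one_pow
  rw [e] at h
  unfold bt at h
  linarith

/-! ### Subsets of `Q` with at most `J` elements -/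

/-- subsets of `Q` with at most `J` elements -/
def sub (Q : Finset ℕ) (J : ℕ) : Finset (Finset ℕ) := Q.powerset.filter (fun D => D.card ≤ J)

theorem mem_sub {Q D : Finset ℕ} {J : ℕ} : D ∈ sub Q J ↔ D ⊆ Q ∧ D.card ≤ J := by
  simp [sub]

theorem sum_choose_eq (Q : Finset ℕ) (J m : ℕ) (c : ℝ) :
    ∑ j ∈ range (J + 1), c ^ j * ((om Q m).choose j : ℝ) =
      ∑ D ∈ sub Q J, if ∀ p ∈ D, p ∣ m then c ^ D.card else 0 := by
  have h1 : ∀ j ∈ range (J + 1), c ^ j * ((om Q m).choose j : ℝ) =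
      ∑ D ∈ (Q.filter (fun p => p ∣ m)).powersetCard j, c ^ D.card := by
    intro j _
    have : ∀ D ∈ (Q.filter (fun p => p ∣ m)).powersetCard j, c ^ D.card = c ^ j := by
      intro D hD
      rw [(mem_powersetCard.1 hD).2]
    rw [sum_congr rfl this, sum_const, card_powersetCard, nsmul_eq_mul]
    unfold om
    ring
  rw [sum_congr rfl h1, ← sum_filter, ← sum_biUnion]
  · refine sum_congr ?_ fun _ _ => rfl
    ext D
    simp only [mem_biUnion, mem_range, mem_powersetCard, mem_filter, mem_sub, subset_iff]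
    constructor
    · rintro ⟨j, hj, hD, hc⟩
      exact ⟨⟨fun p hp => (hD hp).1, by omega⟩, fun p hp => (hD hp).2⟩
    · rintro ⟨⟨hD, hc⟩, hd⟩
      exact ⟨D.card, by omega, fun p hp => ⟨hD hp, hd p hp⟩, rfl⟩
  · intro i _ j _ hij
    rw [Function.onFun, disjoint_left]
    intro D hD hD'
    rw [mem_powersetCard] at hD hD'
    exact hij (hD.2.symm.trans hD'.2)

/-- number of `m` in `[a, a+X)` divisible by all `p ∈ D` -/
def cnt (a X : ℕ) (D : Finset ℕ) : ℕ := ((Ico a (a + X)).filter (fun m => ∀ p ∈ D, p ∣ m)).card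

theorem forall_dvd_iff {D : Finset ℕ} (hD : ∀ p ∈ D, p.Prime) (m : ℕ) :
    (∀ p ∈ D, p ∣ m) ↔ (∏ p ∈ D, p) ∣ m := by
  constructor
  · intro h
    exact Finset.prod_primes_dvd m (fun p hp => (hD p hp).prime) h
  · intro h p hp
    exact (dvd_prod_of_mem _ hp).trans h

theorem prod_pos' {D : Finset ℕ} (hD : ∀ p ∈ D, p.Prime) : 0 < ∏ p ∈ D, p :=
  prod_pos fun p hp => (hD p hp).pos

theorem cnt_bounds (a X : ℕ) {D : Finset ℕ} (hD : ∀ p ∈ D, p.Prime) :
    |(cnt a X D : ℝ) - X * ∏ p ∈ D, (1 / (p : ℝ))| ≤ 1 := by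
  have hpos := prod_pos' hD
  have e2 : ∏ p ∈ D, (1 / (p : ℝ)) = 1 / ((∏ p ∈ D, p : ℕ) : ℝ) := by
    push_cast
    rw [prod_div_distrib]
    simp
  have e1 : cnt a X D = ((Ico a (a + X)).filter (fun m => m ≡ 0 [MOD (∏ p ∈ D, p)])).card := by
    unfold cnt
    congr 1
    exact filter_congr fun m _ => (forall_dvd_iff hD m).trans (Nat.modEq_zero_iff_dvd).symm
  rw [e1, e2]
  generalize (∏ p ∈ D, p) = d at hpos
  have h3 := Nat.Ico_filter_modEq_card a (a + X) (r := d) hpos 0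
  have hd0 : (0 : ℚ) < d := by exact_mod_cast hpos
  generalize ((Ico a (a + X)).filter (fun m => m ≡ 0 [MOD d])).card = c at h3
  have key : |(c : ℚ) - X * (1 / d)| ≤ 1 := by
    have hc : (c : ℚ) = ((max (⌈(((a + X : ℕ) : ℚ) - (0 : ℕ)) / (d : ℚ)⌉ - ⌈((a : ℚ) - (0 : ℕ)) / (d : ℚ)⌉) 0 : ℤ) : ℚ) := by
      rw [← h3]
      norm_num
    have e4 : (((a + X : ℕ) : ℚ) - (0 : ℕ)) / (d : ℚ) = (a : ℚ) / d + X * (1 / d) := by
      push_cast
      field_simp
      ring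
    have e5 : ((a : ℚ) - (0 : ℕ)) / (d : ℚ) = (a : ℚ) / d := by
      push_cast
      ring
    rw [e4, e5] at hc
    generalize (a : ℚ) / d = A at hc
    have hB : 0 ≤ (X : ℚ) * (1 / d) := by positivity
    generalize (X : ℚ) * (1 / d) = B at hc hB
    have g1 := Int.ceil_lt_add_one (A + B)
    have g2 := Int.le_ceil (A + B)
    have g3 := Int.ceil_lt_add_one A
    have g4 := Int.le_ceil A
    have g5 : ⌈A⌉ ≤ ⌈A + B⌉ := Int.ceil_mono (by linarith)
    rw [max_eq_left (by linarith)] at hc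
    push_cast at hc
    rw [hc, abs_le]
    constructor <;> linarith
  have : ((|(c : ℚ) - X * (1 / d)| : ℚ) : ℝ) ≤ ((1 : ℚ) : ℝ) := by exact_mod_cast key
  push_cast at this
  exact this

theorem sum_powerset_le {Q : Finset ℕ} (_hQ : ∀ p ∈ Q, p.Prime) {A : ℝ} (hA : 0 ≤ A) :
    ∑ D ∈ Q.powerset, ∏ p ∈ D, (A / (p : ℝ)) ≤ Real.exp (A * rs Q) := by
  rw [← prod_add_one]
  unfold rs
  rw [mul_sum, Real.exp_sum]
  refine prod_le_prod (fun p hp => ?_) (fun p hp => ?_)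
  · have : (0 : ℝ) ≤ p := Nat.cast_nonneg _
    positivity
  · have h := Real.add_one_le_exp (A * (1 / (p : ℝ)))
    have e : A / (p : ℝ) + 1 = A * (1 / (p : ℝ)) + 1 := by ring
    rw [e]
    exact h

theorem inv_prod_nonneg (D : Finset ℕ) : 0 ≤ ∏ p ∈ D, (1 / (p : ℝ)) :=
  prod_nonneg fun p _ => by positivity

/-- Rankin: subsets with more than `J` elements -/
theorem tail_le {Q : Finset ℕ} (hQ : ∀ p ∈ Q, p.Prime) (J : ℕ) :
    ∑ D ∈ Q.powerset.filter (fun D => J ≤ D.card), ∏ p ∈ D, (1 / (p : ℝ)) ≤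
      Real.exp (Real.exp 1 * rs Q - J) := by
  have h1 : ∀ D ∈ Q.powerset.filter (fun D => J ≤ D.card), ∏ p ∈ D, (1 / (p : ℝ)) ≤
      Real.exp (-(J : ℝ)) * ∏ p ∈ D, (Real.exp 1 / (p : ℝ)) := by
    intro D hD
    have hJ : (J : ℝ) ≤ D.card := by exact_mod_cast (mem_filter.1 hD).2
    have e1 : ∏ p ∈ D, (Real.exp 1 / (p : ℝ)) = Real.exp D.card * ∏ p ∈ D, (1 / (p : ℝ)) := by
      have : ∀ p ∈ D, Real.exp 1 / (p : ℝ) = Real.exp 1 * (1 / (p : ℝ)) := fun p _ => by ring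
      rw [prod_congr rfl this, prod_mul_distrib, prod_const, ← Real.exp_nat_mul, mul_one]
    rw [e1, ← mul_assoc, ← Real.exp_add]
    have : 1 ≤ Real.exp (-(J : ℝ) + D.card) := Real.one_le_exp (by linarith)
    nlinarith [inv_prod_nonneg D]
  calc _ ≤ ∑ D ∈ Q.powerset.filter (fun D => J ≤ D.card),
        Real.exp (-(J : ℝ)) * ∏ p ∈ D, (Real.exp 1 / (p : ℝ)) := sum_le_sum h1
    _ ≤ ∑ D ∈ Q.powerset, Real.exp (-(J : ℝ)) * ∏ p ∈ D, (Real.exp 1 / (p : ℝ)) := by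
        refine sum_le_sum_of_subset_of_nonneg (filter_subset _ _) fun D _ _ => ?_
        exact mul_nonneg (Real.exp_pos _).le (prod_nonneg fun p _ => by positivity)
    _ ≤ Real.exp (-(J : ℝ)) * Real.exp (Real.exp 1 * rs Q) := by
        rw [← mul_sum]
        exact mul_le_mul_of_nonneg_left (sum_powerset_le hQ (Real.exp_pos _).le) (Real.exp_pos _).le
    _ = _ := by rw [← Real.exp_add]; ring_nf

theorem sub_card_le {Q : Finset ℕ} {z : ℕ} (hQ : ∀ p ∈ Q, p.Prime ∧ p ≤ z) (hz : 1 ≤ z) (J : ℕ) :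
    ((sub Q J).card : ℝ) ≤ (z : ℝ) ^ J * Real.exp (rs Q) := by
  have hz1 : (1 : ℝ) ≤ z := by exact_mod_cast hz
  have h1 : ∀ D ∈ sub Q J, (1 : ℝ) ≤ (z : ℝ) ^ J * ∏ p ∈ D, (1 / (p : ℝ)) := by
    intro D hD
    rw [mem_sub] at hD
    have e : (z : ℝ) ^ D.card * ∏ p ∈ D, (1 / (p : ℝ)) = ∏ p ∈ D, ((z : ℝ) / p) := by
      rw [← prod_const, ← prod_mul_distrib]
      exact prod_congr rfl fun p _ => by ring
    have h2 : 1 ≤ ∏ p ∈ D, ((z : ℝ) / p) := by
      have : ∏ p ∈ D, (1 : ℝ) ≤ ∏ p ∈ D, ((z : ℝ) / p) := by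
        refine prod_le_prod (fun _ _ => zero_le_one) fun p hp => ?_
        have hp' := hQ p (hD.1 hp)
        have hp0 : (0 : ℝ) < p := by exact_mod_cast hp'.1.pos
        rw [le_div_iff₀ hp0, one_mul]
        exact_mod_cast hp'.2
      simpa using this
    calc (1 : ℝ) ≤ (z : ℝ) ^ D.card * ∏ p ∈ D, (1 / (p : ℝ)) := by rw [e]; exact h2
      _ ≤ _ := mul_le_mul_of_nonneg_right (pow_le_pow_right₀ hz1 hD.2) (inv_prod_nonneg D)
  calc ((sub Q J).card : ℝ) = ∑ D ∈ sub Q J, (1 : ℝ) := by simp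
    _ ≤ ∑ D ∈ sub Q J, (z : ℝ) ^ J * ∏ p ∈ D, (1 / (p : ℝ)) := sum_le_sum h1
    _ ≤ ∑ D ∈ Q.powerset, (z : ℝ) ^ J * ∏ p ∈ D, (1 / (p : ℝ)) := by
        refine sum_le_sum_of_subset_of_nonneg (filter_subset _ _) fun D _ _ => ?_
        exact mul_nonneg (by positivity) (inv_prod_nonneg D)
    _ ≤ _ := by
        rw [← mul_sum]
        refine mul_le_mul_of_nonneg_left ?_ (by positivity)
        have := sum_powerset_le (fun p hp => (hQ p hp).1) zero_le_one
        simpa using this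

/-- main term of the truncated sum -/
theorem main_term {Q : Finset ℕ} (hQ : ∀ p ∈ Q, p.Prime) {w : ℝ} (hw0 : 0 ≤ w) (hw1 : w ≤ 1) (J : ℕ) :
    |∑ D ∈ sub Q J, (-w) ^ D.card * ∏ p ∈ D, (1 / (p : ℝ)) - ∏ p ∈ Q, (1 - w / p)| ≤
      Real.exp (Real.exp 1 * rs Q - (J + 1 : ℕ)) := by
  have e1 : ∏ p ∈ Q, (1 - w / (p : ℝ)) = ∑ D ∈ Q.powerset, (-w) ^ D.card * ∏ p ∈ D, (1 / (p : ℝ)) := by
    have : ∀ p ∈ Q, 1 - w / (p : ℝ) = (-w) * (1 / (p : ℝ)) + 1 := fun p _ => by ring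
    rw [prod_congr rfl this, prod_add_one]
    refine sum_congr rfl fun D _ => ?_
    rw [prod_mul_distrib, prod_const]
  have e2 : ∑ D ∈ Q.powerset, (-w) ^ D.card * ∏ p ∈ D, (1 / (p : ℝ)) =
      ∑ D ∈ sub Q J, (-w) ^ D.card * ∏ p ∈ D, (1 / (p : ℝ)) +
        ∑ D ∈ Q.powerset.filter (fun D => J + 1 ≤ D.card), (-w) ^ D.card * ∏ p ∈ D, (1 / (p : ℝ)) := by
    unfold sub
    rw [← sum_filter_add_sum_filter_not Q.powerset (fun D => D.card ≤ J)]
    congr 1
    refine sum_congr ?_ fun _ _ => rfl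
    exact filter_congr fun D _ => by omega
  rw [e1, e2, sub_add_cancel_left, abs_neg]
  refine (abs_sum_le_sum_abs _ _).trans ((sum_le_sum fun D _ => ?_).trans (tail_le hQ (J + 1)))
  rw [abs_mul, abs_pow, abs_neg, abs_of_nonneg hw0, abs_of_nonneg (inv_prod_nonneg D)]
  exact mul_le_of_le_one_left (inv_prod_nonneg D) (pow_le_one₀ hw0 hw1)

theorem prod_le_exp {Q : Finset ℕ} (hQ : ∀ p ∈ Q, p.Prime) {w : ℝ} (hw1 : w ≤ 1) :
    ∏ p ∈ Q, (1 - w / (p : ℝ)) ≤ Real.exp (-(w * rs Q)) := by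
  unfold rs
  rw [mul_sum, ← sum_neg_distrib, Real.exp_sum]
  refine prod_le_prod (fun p hp => ?_) (fun p hp => ?_)
  · have h2 : (1 : ℝ) ≤ p := by exact_mod_cast (hQ p hp).one_lt.le
    have : w / (p : ℝ) ≤ 1 := by
      rw [div_le_one (by linarith)]
      linarith
    linarith
  · have h := Real.add_one_le_exp (-(w * (1 / (p : ℝ))))
    have e : 1 - w / (p : ℝ) = -(w * (1 / (p : ℝ))) + 1 := by ring
    rw [e]
    exact h

theorem sum_trunc (Q : Finset ℕ) (J a X : ℕ) (c : ℝ) :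
    ∑ m ∈ Ico a (a + X), ∑ j ∈ range (J + 1), c ^ j * ((om Q m).choose j : ℝ) =
      ∑ D ∈ sub Q J, c ^ D.card * (cnt a X D : ℝ) := by
  rw [sum_congr rfl fun m _ => sum_choose_eq Q J m c, sum_comm]
  refine sum_congr rfl fun D _ => ?_
  rw [← sum_filter, sum_const, nsmul_eq_mul]
  unfold cnt
  ring

theorem trunc_bound {Q : Finset ℕ} {z : ℕ} (hQ : ∀ p ∈ Q, p.Prime ∧ p ≤ z) (hz : 1 ≤ z)
    {w : ℝ} (hw0 : 0 ≤ w) (hw1 : w ≤ 1) (J a X : ℕ) :
    |∑ D ∈ sub Q J, (-w) ^ D.card * (cnt a X D : ℝ) - X * ∏ p ∈ Q, (1 - w / (p : ℝ))| ≤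
      X * Real.exp (Real.exp 1 * rs Q - J) + (z : ℝ) ^ J * Real.exp (rs Q) := by
  have hQ' : ∀ p ∈ Q, p.Prime := fun p hp => (hQ p hp).1
  have h1 : |∑ D ∈ sub Q J, (-w) ^ D.card * (cnt a X D : ℝ) -
      ∑ D ∈ sub Q J, (-w) ^ D.card * (X * ∏ p ∈ D, (1 / (p : ℝ)))| ≤ (z : ℝ) ^ J * Real.exp (rs Q) := by
    rw [← sum_sub_distrib]
    refine (abs_sum_le_sum_abs _ _).trans ?_
    refine le_trans ?_ (sub_card_le hQ hz J)
    have : ∀ D ∈ sub Q J, |(-w) ^ D.card * (cnt a X D : ℝ) -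
        (-w) ^ D.card * (X * ∏ p ∈ D, (1 / (p : ℝ)))| ≤ 1 := by
      intro D hD
      rw [mem_sub] at hD
      rw [← mul_sub, abs_mul, abs_pow, abs_neg, abs_of_nonneg hw0]
      have h2 := cnt_bounds a X (D := D) fun p hp => hQ' p (hD.1 hp)
      have h3 : w ^ D.card ≤ 1 := pow_le_one₀ hw0 hw1
      have h4 : 0 ≤ w ^ D.card := pow_nonneg hw0 _
      have h5 := abs_nonneg ((cnt a X D : ℝ) - X * ∏ p ∈ D, (1 / (p : ℝ)))
      nlinarith
    calc _ ≤ ∑ D ∈ sub Q J, (1 : ℝ) := sum_le_sum this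
      _ = _ := by simp
  have h2 : ∑ D ∈ sub Q J, (-w) ^ D.card * (X * ∏ p ∈ D, (1 / (p : ℝ))) =
      X * ∑ D ∈ sub Q J, (-w) ^ D.card * ∏ p ∈ D, (1 / (p : ℝ)) := by
    rw [mul_sum]
    exact sum_congr rfl fun D _ => by ring
  have h3 := main_term hQ' hw0 hw1 J
  have hX : (0 : ℝ) ≤ X := Nat.cast_nonneg _
  have h4 : |(X : ℝ) * ∑ D ∈ sub Q J, (-w) ^ D.card * ∏ p ∈ D, (1 / (p : ℝ)) -
      X * ∏ p ∈ Q, (1 - w / (p : ℝ))| ≤ X * Real.exp (Real.exp 1 * rs Q - J) := by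
    rw [← mul_sub, abs_mul, abs_of_nonneg hX]
    refine mul_le_mul_of_nonneg_left (h3.trans (Real.exp_le_exp.mpr ?_)) hX
    push_cast
    linarith
  rw [h2] at h1
  have := abs_sub_le (∑ D ∈ sub Q J, (-w) ^ D.card * (cnt a X D : ℝ))
    (X * ∑ D ∈ sub Q J, (-w) ^ D.card * ∏ p ∈ D, (1 / (p : ℝ))) (X * ∏ p ∈ Q, (1 - w / (p : ℝ)))
  linarith

/-- **Mean value of `(1-w)^ω` in a short interval**, upper bound. -/
theorem sum_pow_le {Q : Finset ℕ} {z : ℕ} (hQ : ∀ p ∈ Q, p.Prime ∧ p ≤ z) (hz : 1 ≤ z)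
    {w : ℝ} (hw0 : 0 ≤ w) (hw1 : w ≤ 1) {J : ℕ} (hJ : Even J) (a X : ℕ) :
    ∑ m ∈ Ico a (a + X), (1 - w) ^ (om Q m) ≤
      X * (Real.exp (-(w * rs Q)) + Real.exp (Real.exp 1 * rs Q - J)) + (z : ℝ) ^ J * Real.exp (rs Q) := by
  have h1 : ∑ m ∈ Ico a (a + X), (1 - w) ^ (om Q m) ≤
      ∑ m ∈ Ico a (a + X), ∑ j ∈ range (J + 1), (-w) ^ j * ((om Q m).choose j : ℝ) :=
    sum_le_sum fun m _ => bon_even w hw0 hw1 _ J hJ
  rw [sum_trunc] at h1
  have h2 := (abs_le.1 (trunc_bound hQ hz hw0 hw1 J a X)).2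
  have h3 := mul_le_mul_of_nonneg_left (prod_le_exp (fun p hp => (hQ p hp).1) hw1) (Nat.cast_nonneg (α := ℝ) X)
  linarith

/-- **Brun's pure sieve**, lower bound in a short interval. -/
theorem brun_low {Q : Finset ℕ} {z : ℕ} (hQ : ∀ p ∈ Q, p.Prime ∧ p ≤ z) (hz : 1 ≤ z)
    {J : ℕ} (hJ : Odd J) (a X : ℕ) :
    X * (∏ p ∈ Q, (1 - 1 / (p : ℝ)) - Real.exp (Real.exp 1 * rs Q - J)) - (z : ℝ) ^ J * Real.exp (rs Q) ≤
      (((Ico a (a + X)).filter (fun m => om Q m = 0)).card : ℝ) := by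
  have h1 : ∑ m ∈ Ico a (a + X), ∑ j ∈ range (J + 1), (-1 : ℝ) ^ j * ((om Q m).choose j : ℝ) ≤
      ∑ m ∈ Ico a (a + X), (1 - 1 : ℝ) ^ (om Q m) :=
    sum_le_sum fun m _ => bon_odd 1 zero_le_one le_rfl _ J hJ
  rw [sum_trunc] at h1
  have h2 := (abs_le.1 (trunc_bound hQ hz zero_le_one le_rfl J a X)).1
  have h3 : ∑ m ∈ Ico a (a + X), (1 - 1 : ℝ) ^ (om Q m) =
      (((Ico a (a + X)).filter (fun m => om Q m = 0)).card : ℝ) := by
    rw [card_filter]
    push_cast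
    refine sum_congr rfl fun m _ => ?_
    split_ifs with h
    · rw [h]; simp
    · rw [sub_self, zero_pow h]
  linarith

/-- **Large values of `ω`** in a short interval. -/
theorem card_om_ge {Q : Finset ℕ} {z : ℕ} (hQ : ∀ p ∈ Q, p.Prime ∧ p ≤ z) (hz : 1 ≤ z)
    {w : ℝ} (hw0 : 0 ≤ w) {K : ℕ} (a X : ℕ) (hK : z ^ K ≤ X) (k : ℕ) :
    (((Ico a (a + X)).filter (fun m => k ≤ om Q m)).card : ℝ) ≤
      2 * X * (((1 + w) ^ k)⁻¹ * Real.exp (w * rs Q) + Real.exp (Real.exp 1 * rs Q - K)) := by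
  have hQ' : ∀ p ∈ Q, p.Prime := fun p hp => (hQ p hp).1
  have hX0 : (0 : ℝ) ≤ X := Nat.cast_nonneg _
  have hcnt : ∀ D : Finset ℕ, D ⊆ Q → D.card ≤ K → (cnt a X D : ℝ) ≤ 2 * X * ∏ p ∈ D, (1 / (p : ℝ)) := by
    intro D hD hDK
    have h1 := (abs_le.1 (cnt_bounds a X (D := D) fun p hp => hQ' p (hD hp))).2
    have h2 : (1 : ℝ) ≤ X * ∏ p ∈ D, (1 / (p : ℝ)) := by
      have hpr : (∏ p ∈ D, p) ≤ X := by
        refine le_trans ?_ hK
        calc (∏ p ∈ D, p) ≤ ∏ p ∈ D, z := prod_le_prod' fun p hp => (hQ p (hD hp)).2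
          _ = z ^ D.card := prod_const _
          _ ≤ z ^ K := Nat.pow_le_pow_right hz hDK
      have e2 : ∏ p ∈ D, (1 / (p : ℝ)) = 1 / ((∏ p ∈ D, p : ℕ) : ℝ) := by
        push_cast
        rw [prod_div_distrib]
        simp
      rw [e2, mul_one_div, le_div_iff₀ (by exact_mod_cast prod_pos' fun p hp => hQ' p (hD hp)), one_mul]
      exact_mod_cast hpr
    linarith
  -- the values `ω ≥ K`
  have hbig : (((Ico a (a + X)).filter (fun m => K ≤ om Q m)).card : ℝ) ≤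
      2 * X * Real.exp (Real.exp 1 * rs Q - K) := by
    have h1 : ((Ico a (a + X)).filter (fun m => K ≤ om Q m)).card ≤ ∑ D ∈ Q.powersetCard K, cnt a X D := by
      have hsub : (Ico a (a + X)).filter (fun m => K ≤ om Q m) ⊆
          (Q.powersetCard K).biUnion (fun D => (Ico a (a + X)).filter (fun m => ∀ p ∈ D, p ∣ m)) := by
        intro m hm
        rw [mem_filter] at hm
        obtain ⟨D, hD, hDc⟩ := exists_subset_card_eq hm.2
        rw [mem_biUnion]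
        refine ⟨D, mem_powersetCard.2 ⟨hD.trans (filter_subset _ _), hDc⟩, mem_filter.2 ⟨hm.1, ?_⟩⟩
        intro p hp
        exact (mem_filter.1 (hD hp)).2
      exact (card_le_card hsub).trans card_biUnion_le
    calc (((Ico a (a + X)).filter (fun m => K ≤ om Q m)).card : ℝ) ≤ ((∑ D ∈ Q.powersetCard K, cnt a X D : ℕ) : ℝ) := by
          exact_mod_cast h1
      _ = ∑ D ∈ Q.powersetCard K, (cnt a X D : ℝ) := by push_cast; rfl
      _ ≤ ∑ D ∈ Q.powersetCard K, 2 * X * ∏ p ∈ D, (1 / (p : ℝ)) := by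
          refine sum_le_sum fun D hD => ?_
          rw [mem_powersetCard] at hD
          exact hcnt D hD.1 hD.2.le
      _ ≤ ∑ D ∈ Q.powerset.filter (fun D => K ≤ D.card), 2 * X * ∏ p ∈ D, (1 / (p : ℝ)) := by
          refine sum_le_sum_of_subset_of_nonneg ?_ fun D _ _ => mul_nonneg (by positivity) (inv_prod_nonneg D)
          intro D hD
          rw [mem_powersetCard] at hD
          rw [mem_filter, mem_powerset]
          exact ⟨hD.1, hD.2.ge⟩
      _ ≤ _ := by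
          rw [← mul_sum]
          exact mul_le_mul_of_nonneg_left (tail_le hQ' K) (by positivity)
  -- the values `k ≤ ω < K`
  have hmid : (((Ico a (a + X)).filter (fun m => k ≤ om Q m ∧ om Q m < K)).card : ℝ) ≤
      2 * X * (((1 + w) ^ k)⁻¹ * Real.exp (w * rs Q)) := by
    have h1 : ((((Ico a (a + X)).filter (fun m => k ≤ om Q m ∧ om Q m < K)).card : ℝ)) ≤
        ((1 + w) ^ k)⁻¹ * ∑ m ∈ Ico a (a + X), ∑ j ∈ range (K + 1), w ^ j * ((om Q m).choose j : ℝ) := by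
      rw [card_filter]
      push_cast
      rw [mul_sum]
      refine sum_le_sum fun m _ => ?_
      have hnn : 0 ≤ ∑ j ∈ range (K + 1), w ^ j * ((om Q m).choose j : ℝ) :=
        sum_nonneg fun j _ => by positivity
      split_ifs with h
      · have h2 : ∑ j ∈ range (K + 1), w ^ j * ((om Q m).choose j : ℝ) = (1 + w) ^ (om Q m) := by
          rw [add_comm 1 w, add_pow]
          have : range (om Q m + 1) ⊆ range (K + 1) := range_mono (by omega)
          rw [← sum_subset this]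
          · exact sum_congr rfl fun j _ => by simp
          · intro j _ hj
            rw [mem_range, not_lt] at hj
            rw [Nat.choose_eq_zero_of_lt (by omega)]
            simp
        rw [h2, inv_mul_eq_div, le_div_iff₀ (by positivity), one_mul]
        exact pow_le_pow_right₀ (by linarith) h.1
      · exact mul_nonneg (by positivity) hnn
    rw [sum_trunc] at h1
    refine h1.trans ?_
    have h2 : ∑ D ∈ sub Q K, w ^ D.card * (cnt a X D : ℝ) ≤ 2 * X * Real.exp (w * rs Q) := by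
      calc ∑ D ∈ sub Q K, w ^ D.card * (cnt a X D : ℝ) ≤ ∑ D ∈ sub Q K, 2 * X * ∏ p ∈ D, (w / (p : ℝ)) := by
            refine sum_le_sum fun D hD => ?_
            rw [mem_sub] at hD
            have e : ∏ p ∈ D, (w / (p : ℝ)) = w ^ D.card * ∏ p ∈ D, (1 / (p : ℝ)) := by
              rw [← prod_const, ← prod_mul_distrib]
              exact prod_congr rfl fun p _ => by ring
            rw [e]
            have := mul_le_mul_of_nonneg_left (hcnt D hD.1 hD.2) (pow_nonneg hw0 D.card)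
            linarith
        _ ≤ ∑ D ∈ Q.powerset, 2 * X * ∏ p ∈ D, (w / (p : ℝ)) := by
            refine sum_le_sum_of_subset_of_nonneg (filter_subset _ _) fun D _ _ => ?_
            exact mul_nonneg (by positivity) (prod_nonneg fun p _ => by positivity)
        _ ≤ _ := by
            rw [← mul_sum]
            exact mul_le_mul_of_nonneg_left (sum_powerset_le hQ' hw0) (by positivity)
    have h3 : (0 : ℝ) ≤ ((1 + w) ^ k)⁻¹ := by positivity
    nlinarith [mul_le_mul_of_nonneg_left h2 h3]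
  have hsplit : ((Ico a (a + X)).filter (fun m => k ≤ om Q m)).card ≤
      ((Ico a (a + X)).filter (fun m => k ≤ om Q m ∧ om Q m < K)).card +
        ((Ico a (a + X)).filter (fun m => K ≤ om Q m)).card := by
    refine le_trans (card_le_card ?_) (card_union_le _ _)
    intro m hm
    rw [mem_filter] at hm
    rw [mem_union, mem_filter, mem_filter]
    by_cases h : om Q m < K
    · left; exact ⟨hm.1, hm.2, h⟩
    · right; exact ⟨hm.1, by omega⟩
  have : (((Ico a (a + X)).filter (fun m => k ≤ om Q m)).card : ℝ) ≤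
      ((Ico a (a + X)).filter (fun m => k ≤ om Q m ∧ om Q m < K)).card +
        ((Ico a (a + X)).filter (fun m => K ≤ om Q m)).card := by exact_mod_cast hsplit
  nlinarith

end Pool.MedDiv
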