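import Pool.Agent.MedDiv.Defs

/-!
# MedDiv / Cells: tuples of primes, second moment

`T D M r`: functions `τ` on `Fin M × Fin r` with `τ (i, j) ∈ D i`; weight `mu τ = ∏ 1/τ c`; `pS S τ = ∏_{c ∈ S} τ c`.
-/

set_option autoImplicit false

namespace Pool.MedDiv

open Finset

/-- tuples with the entry `(i, j)` in `D i` -/
def T (D : ℕ → Finset ℕ) (M r : ℕ) : Finset (Fin M × Fin r → ℕ) :=
  Fintype.piFinset (fun c : Fin M × Fin r => D c.1)

variable {D : ℕ → Finset ℕ} {M r : ℕ}

/-- weight of a tuple -/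
noncomputable def mu (τ : Fin M × Fin r → ℕ) : ℝ := ∏ c, 1 / (τ c : ℝ)

/-- partial product of a tuple -/
def pS (S : Finset (Fin M × Fin r)) (τ : Fin M × Fin r → ℕ) : ℕ := ∏ c ∈ S, τ c

/-- total weight of the tuples -/
noncomputable def GG (D : ℕ → Finset ℕ) (M r : ℕ) : ℝ := ∏ c : Fin M × Fin r, rs (D c.1)

theorem mu_nonneg (τ : Fin M × Fin r → ℕ) : 0 ≤ mu τ := prod_nonneg fun _ _ => by positivity

theorem sum_mu : ∑ τ ∈ T D M r, mu τ = GG D M r := by
  unfold GG T mu rs
  rw [prod_univ_sum]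

theorem GG_eq : GG D M r = ∏ i ∈ range M, rs (D i) ^ r := by
  unfold GG
  rw [Fintype.prod_prod_type]
  simp only [prod_const, card_univ, Fintype.card_fin]
  rw [← Fin.prod_univ_eq_prod_range (fun i => rs (D i) ^ r)]

theorem mu_update (τ : Fin M × Fin r → ℕ) (c : Fin M × Fin r) (q : ℕ) :
    mu (Function.update τ c q) * (1 / (τ c : ℝ)) = mu τ * (1 / (q : ℝ)) := by
  unfold mu
  rw [← mul_prod_erase univ (fun c' => 1 / ((Function.update τ c q c' : ℕ) : ℝ)) (mem_univ c),
    ← mul_prod_erase univ (fun c' => 1 / (τ c' : ℝ)) (mem_univ c)]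
  have : ∏ x ∈ univ.erase c, (1 / ((Function.update τ c q x : ℕ) : ℝ)) = ∏ x ∈ univ.erase c, (1 / (τ x : ℝ)) := by
    refine prod_congr rfl fun x hx => ?_
    rw [Function.update_of_ne (ne_of_mem_erase hx)]
  rw [this, Function.update_self]
  ring

theorem update_mem {τ : Fin M × Fin r → ℕ} (hτ : τ ∈ T D M r) (c : Fin M × Fin r) {q : ℕ} (hq : q ∈ D c.1) :
    Function.update τ c q ∈ T D M r := by
  unfold T at hτ ⊢
  rw [Fintype.mem_piFinset] at hτ ⊢
  intro c'
  by_cases h : c' = c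
  · subst h; rw [Function.update_self]; exact hq
  · rw [Function.update_of_ne h]; exact hτ c'

/-- resampling one entry -/
theorem resample (c : Fin M × Fin r) (g : (Fin M × Fin r → ℕ) → ℝ) :
    rs (D c.1) * ∑ τ ∈ T D M r, mu τ * g τ =
      ∑ τ ∈ T D M r, mu τ * ∑ q ∈ D c.1, (1 / (q : ℝ)) * g (Function.update τ c q) := by
  have h1 : rs (D c.1) * ∑ τ ∈ T D M r, mu τ * g τ =
      ∑ x ∈ T D M r ×ˢ D c.1, mu x.1 * (1 / (x.2 : ℝ)) * g x.1 := by
    rw [sum_product, mul_sum]
    refine sum_congr rfl fun τ _ => ?_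
    unfold rs
    rw [sum_mul]
    exact sum_congr rfl fun q _ => by ring
  have h2 : ∑ τ ∈ T D M r, mu τ * ∑ q ∈ D c.1, (1 / (q : ℝ)) * g (Function.update τ c q) =
      ∑ x ∈ T D M r ×ˢ D c.1, mu x.1 * (1 / (x.2 : ℝ)) * g (Function.update x.1 c x.2) := by
    rw [sum_product]
    refine sum_congr rfl fun τ _ => ?_
    rw [mul_sum]
    exact sum_congr rfl fun q _ => by ring
  rw [h1, h2]
  have key : ∀ x ∈ T D M r ×ˢ D c.1, (Function.update x.1 c x.2, x.1 c) ∈ T D M r ×ˢ D c.1 := by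
    intro x hx
    rw [mem_product] at hx ⊢
    refine ⟨update_mem hx.1 c hx.2, ?_⟩
    have := hx.1
    unfold T at this
    rw [Fintype.mem_piFinset] at this
    exact this c
  have inv : ∀ x ∈ T D M r ×ˢ D c.1,
      (Function.update (Function.update x.1 c x.2) c (x.1 c), (Function.update x.1 c x.2) c) = x := by
    intro x _
    rw [Function.update_idem, Function.update_eq_self, Function.update_self]
  refine sum_nbij' (fun x => (Function.update x.1 c x.2, x.1 c)) (fun x => (Function.update x.1 c x.2, x.1 c))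
    key key inv inv ?_
  intro x _
  dsimp only
  rw [mu_update, Function.update_idem, Function.update_eq_self]

/-- two partial products are close -/
def Close (A B : ℕ) : Prop := 10 * A < 19 * B ∧ 10 * B < 19 * A

instance (A B : ℕ) : Decidable (Close A B) := by unfold Close; infer_instance

theorem Close.symm {A B : ℕ} (h : Close A B) : Close B A := ⟨h.2, h.1⟩

theorem close_comm {A B : ℕ} : Close A B ↔ Close B A := ⟨Close.symm, Close.symm⟩

theorem pS_update_of_notMem {S : Finset (Fin M × Fin r)} {c : Fin M × Fin r} (hc : c ∉ S)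
    (τ : Fin M × Fin r → ℕ) (q : ℕ) : pS S (Function.update τ c q) = pS S τ := by
  unfold pS
  refine prod_congr rfl fun x hx => Function.update_of_ne ?_ _ _
  rintro rfl
  exact hc hx

theorem pS_update_of_mem {S : Finset (Fin M × Fin r)} {c : Fin M × Fin r} (hc : c ∈ S)
    (τ : Fin M × Fin r → ℕ) (q : ℕ) : pS S (Function.update τ c q) = pS (S.erase c) τ * q := by
  unfold pS
  rw [← mul_prod_erase S _ hc, Function.update_self, mul_comm]
  congr 1
  exact prod_congr rfl fun x hx => Function.update_of_ne (ne_of_mem_erase hx) _ _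

/-- bound for one pair of sets which differ at the cell `c` -/
theorem pair_bound {β : ℝ} (c : Fin M × Fin r)
    (hβ : ∀ A B : ℕ, ∑ q ∈ (D c.1).filter (fun q => Close A (B * q)), 1 / (q : ℝ) ≤ β)
    {S S' : Finset (Fin M × Fin r)} (hc : c ∈ S) (hc' : c ∉ S') :
    rs (D c.1) * ∑ τ ∈ T D M r, mu τ * (if Close (pS S τ) (pS S' τ) then 1 else 0) ≤ GG D M r * β := by
  rw [resample, ← sum_mu, sum_mul]
  refine sum_le_sum fun τ _ => mul_le_mul_of_nonneg_left ?_ (mu_nonneg τ)
  refine le_trans (le_of_eq ?_) (hβ (pS S' τ) (pS (S.erase c) τ))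
  rw [sum_filter]
  refine sum_congr rfl fun q _ => ?_
  rw [pS_update_of_notMem hc', pS_update_of_mem hc]
  by_cases h : Close (pS (S.erase c) τ * q) (pS S' τ)
  · rw [if_pos h, if_pos h.symm, mul_one]
  · rw [if_neg h, if_neg (fun h' => h h'.symm), mul_zero]

/-- cells of the blocks `≤ i` -/
def cellsLE (M r i : ℕ) : Finset (Fin M × Fin r) := univ.filter (fun c => (c.1 : ℕ) ≤ i)

theorem card_cellsLE (i : ℕ) : (cellsLE M r i).card ≤ r * (i + 1) := by
  have : (cellsLE M r i).card ≤ ((range (i + 1)) ×ˢ (univ : Finset (Fin r))).card := by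
    refine card_le_card_of_injOn (fun c => ((c.1 : ℕ), c.2)) ?_ ?_
    · intro c hc
      have := (mem_filter.1 hc).2
      simp only [coe_product, coe_range, coe_univ, Set.mem_prod, Set.mem_Iio, Set.mem_univ, and_true]
      omega
    · intro c _ c' _ h
      simp only [Prod.mk.injEq] at h
      exact Prod.ext (Fin.ext h.1) h.2
  rw [card_product, card_range, card_univ, Fintype.card_fin] at this
  linarith [Nat.mul_comm r (i + 1)]

theorem card_near (S : Finset (Fin M × Fin r)) (i : ℕ) :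
    ((univ : Finset (Finset (Fin M × Fin r))).filter (fun S' => symmDiff S S' ⊆ cellsLE M r i)).card ≤
      2 ^ (r * (i + 1)) := by
  refine le_trans (card_le_card_of_injOn (t := (cellsLE M r i).powerset) (fun S' => symmDiff S S') ?_ ?_) ?_
  · intro S' hS'
    have := (mem_filter.1 hS').2
    exact mem_coe.2 (mem_powerset.2 this)
  · intro A _ B _ h
    exact symmDiff_right_injective S h
  · rw [card_powerset]
    exact Nat.pow_le_pow_right (by norm_num) (card_cellsLE i)

/-- **Second moment.** -/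
theorem second (hpos : ∀ i < M, 0 < rs (D i)) {β : ℕ → ℝ} {C : ℝ}
    (hβ : ∀ i < M, ∀ A B : ℕ, ∑ q ∈ (D i).filter (fun q => Close A (B * q)), 1 / (q : ℝ) ≤ β i)
    (hC : ∀ i < M, (2 : ℝ) ^ (r * (i + 1)) * β i ≤ C * rs (D i)) (hβ0 : ∀ i < M, 0 ≤ β i) :
    ∑ S : Finset (Fin M × Fin r), ∑ S' : Finset (Fin M × Fin r),
      ∑ τ ∈ T D M r, mu τ * (if Close (pS S τ) (pS S' τ) then 1 else 0) ≤
      (2 : ℝ) ^ (M * r) * (GG D M r * (1 + C * M)) := by
  classical
  have hG : 0 ≤ GG D M r := by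
    rw [← sum_mu]
    exact sum_nonneg fun τ _ => mu_nonneg τ
  have hin : ∀ S : Finset (Fin M × Fin r), ∑ S' : Finset (Fin M × Fin r),
      ∑ τ ∈ T D M r, mu τ * (if Close (pS S τ) (pS S' τ) then 1 else 0) ≤ GG D M r * (1 + C * M) := by
    intro S
    set F : Finset (Fin M × Fin r) → ℝ := fun S' =>
      ∑ τ ∈ T D M r, mu τ * (if Close (pS S τ) (pS S' τ) then 1 else 0) with hF
    have hF0 : ∀ S', 0 ≤ F S' := fun S' => sum_nonneg fun τ _ =>
      mul_nonneg (mu_nonneg τ) (by split_ifs <;> norm_num)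
    have hFS : F S ≤ GG D M r := by
      rw [hF, ← sum_mu]
      refine sum_le_sum fun τ _ => ?_
      refine mul_le_of_le_one_right (mu_nonneg τ) ?_
      split_ifs <;> norm_num
    -- the pairs with top block `i`
    have hpair : ∀ S', S' ≠ S → ∃ i < M, symmDiff S S' ⊆ cellsLE M r i ∧ F S' ≤ GG D M r * (β i / rs (D i)) := by
      intro S' hne
      have hnon : (symmDiff S S').Nonempty := by
        rw [nonempty_iff_ne_empty, ne_eq, ← bot_eq_empty, symmDiff_eq_bot]
        exact fun h => hne h.symm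
      obtain ⟨c, hc, hmax⟩ := exists_max_image (symmDiff S S') (fun c => (c.1 : ℕ)) hnon
      refine ⟨c.1, c.1.2, ?_, ?_⟩
      · intro x hx
        rw [cellsLE, mem_filter]
        exact ⟨mem_univ _, hmax x hx⟩
      · have hr0 := hpos c.1 c.1.2
        rw [← mul_div_assoc, le_div_iff₀ hr0, mul_comm]
        rw [mem_symmDiff] at hc
        rcases hc with ⟨h1, h2⟩ | ⟨h1, h2⟩
        · exact pair_bound c (hβ c.1 c.1.2) h1 h2
        · have := pair_bound c (hβ c.1 c.1.2) h1 h2
          rw [hF]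
          simp only [close_comm (A := pS S _)]
          exact this
    choose! ix hix1 hix2 hix3 using hpair
    have hsplit : ∑ S' : Finset (Fin M × Fin r), F S' = F S + ∑ S' ∈ univ.erase S, F S' := by
      rw [← add_sum_erase _ _ (mem_univ S)]
    have hrest : ∑ S' ∈ univ.erase S, F S' ≤ ∑ i ∈ range M, GG D M r * C := by
      have h1 : ∑ S' ∈ univ.erase S, F S' ≤
          ∑ i ∈ range M, ∑ S' ∈ univ.filter (fun S' => symmDiff S S' ⊆ cellsLE M r i),
            GG D M r * (β i / rs (D i)) := by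
        rw [← sum_fiberwise_of_maps_to (t := range M) (g := ix)
          (fun S' hS' => mem_range.2 (hix1 S' (ne_of_mem_erase hS')))]
        refine sum_le_sum fun i hi => ?_
        have hiM := mem_range.1 hi
        calc ∑ S' ∈ (univ.erase S).filter (fun S' => ix S' = i), F S' ≤
            ∑ S' ∈ (univ.erase S).filter (fun S' => ix S' = i), GG D M r * (β i / rs (D i)) := by
              refine sum_le_sum fun S' hS' => ?_
              rw [mem_filter] at hS'
              have := hix3 S' (ne_of_mem_erase hS'.1)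
              rwa [hS'.2] at this
          _ ≤ _ := by
              refine sum_le_sum_of_subset_of_nonneg ?_ fun S' _ _ => ?_
              · intro S' hS'
                rw [mem_filter] at hS' ⊢
                refine ⟨mem_univ _, ?_⟩
                have := hix2 S' (ne_of_mem_erase hS'.1)
                rwa [hS'.2] at this
              · exact mul_nonneg hG (div_nonneg (hβ0 i hiM) (hpos i hiM).le)
      refine h1.trans (sum_le_sum fun i hi => ?_)
      have hiM := mem_range.1 hi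
      rw [sum_const, nsmul_eq_mul]
      have h2 : ((univ.filter (fun S' => symmDiff S S' ⊆ cellsLE M r i)).card : ℝ) ≤ (2 : ℝ) ^ (r * (i + 1)) := by
        exact_mod_cast card_near S i
      have h3 : 0 ≤ GG D M r * (β i / rs (D i)) :=
        mul_nonneg hG (div_nonneg (hβ0 i hiM) (hpos i hiM).le)
      calc _ ≤ (2 : ℝ) ^ (r * (i + 1)) * (GG D M r * (β i / rs (D i))) := mul_le_mul_of_nonneg_right h2 h3
        _ = GG D M r * ((2 : ℝ) ^ (r * (i + 1)) * β i / rs (D i)) := by ring
        _ ≤ GG D M r * C := by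
            refine mul_le_mul_of_nonneg_left ?_ hG
            rw [div_le_iff₀ (hpos i hiM)]
            exact hC i hiM
    rw [hsplit]
    rw [sum_const, card_range, nsmul_eq_mul] at hrest
    nlinarith
  calc _ ≤ ∑ S : Finset (Fin M × Fin r), GG D M r * (1 + C * M) := sum_le_sum fun S _ => hin S
    _ = _ := by
        rw [sum_const, card_univ, Fintype.card_finset, Fintype.card_prod, Fintype.card_fin, Fintype.card_fin,
          nsmul_eq_mul]
        push_cast
        ring

/-- the last prime `p` completes `d` to a divisor in `(Y, 1.9 Y]` -/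
def Good (Y d p : ℕ) : Prop := Y < d * p ∧ 10 * (d * p) ≤ 19 * Y

instance (Y d p : ℕ) : Decidable (Good Y d p) := by unfold Good; infer_instance

theorem Good.close {Y d d' p : ℕ} (h : Good Y d p) (h' : Good Y d' p) : Close d d' := by
  unfold Good at h h'
  have hp : 0 < p := by
    rcases Nat.eq_zero_or_pos p with h0 | h0
    · subst h0; simp at h
    · exact h0
  unfold Close
  constructor
  · have : (10 * d) * p < (19 * d') * p := by
      calc (10 * d) * p = 10 * (d * p) := by ring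
        _ ≤ 19 * Y := h.2
        _ < 19 * (d' * p) := by omega
        _ = _ := by ring
    exact lt_of_mul_lt_mul_right this (Nat.zero_le p)
  · have : (10 * d') * p < (19 * d) * p := by
      calc (10 * d') * p = 10 * (d' * p) := by ring
        _ ≤ 19 * Y := h'.2
        _ < 19 * (d * p) := by omega
        _ = _ := by ring
    exact lt_of_mul_lt_mul_right this (Nat.zero_le p)

/-- the good pairs (tuple, last prime) -/
def EE (D : ℕ → Finset ℕ) (M r Y : ℕ) (P : Finset ℕ) : Finset ((Fin M × Fin r → ℕ) × ℕ) :=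
  (T D M r ×ˢ P).filter (fun x => ∃ S : Finset (Fin M × Fin r), Good Y (pS S x.1) x.2)

/-- **Total weight of the good pairs** (Cauchy–Schwarz). -/
theorem weight_low (hpos : ∀ i < M, 0 < rs (D i)) {β : ℕ → ℝ} {C : ℝ}
    (hβ : ∀ i < M, ∀ A B : ℕ, ∑ q ∈ (D i).filter (fun q => Close A (B * q)), 1 / (q : ℝ) ≤ β i)
    (hC : ∀ i < M, (2 : ℝ) ^ (r * (i + 1)) * β i ≤ C * rs (D i)) (hβ0 : ∀ i < M, 0 ≤ β i)
    {Y : ℕ} {P : Finset ℕ} {c₁ c₂ : ℝ} (hc1 : 0 ≤ c₁) (hc2 : 0 < c₂)
    (h1 : ∀ τ ∈ T D M r, ∀ S, c₁ ≤ ∑ p ∈ P.filter (fun p => Good Y (pS S τ) p), 1 / (p : ℝ))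
    (h2 : ∀ τ ∈ T D M r, ∀ S, ∑ p ∈ P.filter (fun p => Good Y (pS S τ) p), 1 / (p : ℝ) ≤ c₂) :
    c₁ ^ 2 * ((2 : ℝ) ^ (M * r) * GG D M r) ≤
      c₂ * (1 + C * M) * ∑ x ∈ EE D M r Y P, mu x.1 * (1 / (x.2 : ℝ)) := by
  classical
  have hG : 0 < GG D M r := prod_pos fun c _ => hpos c.1 c.1.2
  set f : ((Fin M × Fin r → ℕ) × ℕ) → ℝ := fun x =>
    ∑ S : Finset (Fin M × Fin r), (if Good Y (pS S x.1) x.2 then (1 : ℝ) else 0) with hf
  set wt : ((Fin M × Fin r → ℕ) × ℕ) → ℝ := fun x => mu x.1 * (1 / (x.2 : ℝ)) with hwt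
  have hwt0 : ∀ x, 0 ≤ wt x := fun x => mul_nonneg (mu_nonneg _) (by positivity)
  have hf0 : ∀ x, 0 ≤ f x := fun x => sum_nonneg fun S _ => by split_ifs <;> norm_num
  have hF1 : (2 : ℝ) ^ (M * r) * GG D M r * c₁ ≤ ∑ x ∈ T D M r ×ˢ P, wt x * f x := by
    have e : ∑ x ∈ T D M r ×ˢ P, wt x * f x = ∑ τ ∈ T D M r, mu τ *
        ∑ S : Finset (Fin M × Fin r), ∑ p ∈ P.filter (fun p => Good Y (pS S τ) p), 1 / (p : ℝ) := by
      rw [sum_product]
      refine sum_congr rfl fun τ _ => ?_
      simp only [hf, hwt]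
      simp_rw [mul_sum]
      rw [sum_comm]
      refine sum_congr rfl fun S _ => ?_
      rw [← mul_sum, sum_filter, mul_sum]
      refine sum_congr rfl fun p _ => ?_
      split_ifs <;> ring
    rw [e]
    calc (2 : ℝ) ^ (M * r) * GG D M r * c₁ = ∑ τ ∈ T D M r, mu τ * ((2 : ℝ) ^ (M * r) * c₁) := by
          rw [← sum_mul, sum_mu]; ring
      _ ≤ _ := by
          refine sum_le_sum fun τ hτ => mul_le_mul_of_nonneg_left ?_ (mu_nonneg τ)
          calc (2 : ℝ) ^ (M * r) * c₁ = ∑ S : Finset (Fin M × Fin r), c₁ := by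
                rw [sum_const, card_univ, Fintype.card_finset, Fintype.card_prod, Fintype.card_fin,
                  Fintype.card_fin, nsmul_eq_mul]
                push_cast
                ring
            _ ≤ _ := sum_le_sum fun S _ => h1 τ hτ S
  have hF2 : ∑ x ∈ T D M r ×ˢ P, wt x * f x ^ 2 ≤ c₂ * ((2 : ℝ) ^ (M * r) * (GG D M r * (1 + C * M))) := by
    have e : ∀ x, f x ^ 2 = ∑ S : Finset (Fin M × Fin r), ∑ S' : Finset (Fin M × Fin r),
        (if Good Y (pS S x.1) x.2 ∧ Good Y (pS S' x.1) x.2 then (1 : ℝ) else 0) := by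
      intro x
      simp only [hf]
      rw [sq, sum_mul_sum]
      refine sum_congr rfl fun S _ => sum_congr rfl fun S' _ => ?_
      by_cases ha : Good Y (pS S x.1) x.2 <;> by_cases hb : Good Y (pS S' x.1) x.2 <;> simp [ha, hb]
    have e2 : ∑ x ∈ T D M r ×ˢ P, wt x * f x ^ 2 = ∑ S : Finset (Fin M × Fin r), ∑ S' : Finset (Fin M × Fin r),
        ∑ τ ∈ T D M r, mu τ * ∑ p ∈ P, (if Good Y (pS S τ) p ∧ Good Y (pS S' τ) p then 1 / (p : ℝ) else 0) := by
      simp_rw [e, mul_sum]
      rw [sum_comm]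
      refine sum_congr rfl fun S _ => ?_
      rw [sum_comm]
      refine sum_congr rfl fun S' _ => ?_
      rw [sum_product]
      refine sum_congr rfl fun τ _ => sum_congr rfl fun p _ => ?_
      simp only [hwt]
      split_ifs <;> ring
    rw [e2]
    have h3 : ∀ S S' : Finset (Fin M × Fin r), ∑ τ ∈ T D M r, mu τ *
        ∑ p ∈ P, (if Good Y (pS S τ) p ∧ Good Y (pS S' τ) p then 1 / (p : ℝ) else 0) ≤
        c₂ * ∑ τ ∈ T D M r, mu τ * (if Close (pS S τ) (pS S' τ) then 1 else 0) := by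
      intro S S'
      rw [mul_sum]
      refine sum_le_sum fun τ hτ => ?_
      by_cases hcl : Close (pS S τ) (pS S' τ)
      · rw [if_pos hcl, mul_one, mul_comm c₂]
        refine mul_le_mul_of_nonneg_left ?_ (mu_nonneg τ)
        refine le_trans ?_ (h2 τ hτ S)
        rw [sum_filter]
        refine sum_le_sum fun p _ => ?_
        by_cases ha : Good Y (pS S τ) p
        · rw [if_pos ha]
          split_ifs
          · exact le_rfl
          · positivity
        · rw [if_neg ha, if_neg (fun h => ha h.1)]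
      · have : ∑ p ∈ P, (if Good Y (pS S τ) p ∧ Good Y (pS S' τ) p then 1 / (p : ℝ) else 0) = 0 :=
          sum_eq_zero fun p _ => if_neg fun h => hcl (h.1.close h.2)
        rw [this, if_neg hcl]
        simp
    calc _ ≤ ∑ S : Finset (Fin M × Fin r), ∑ S' : Finset (Fin M × Fin r),
          c₂ * ∑ τ ∈ T D M r, mu τ * (if Close (pS S τ) (pS S' τ) then 1 else 0) :=
          sum_le_sum fun S _ => sum_le_sum fun S' _ => h3 S S'
      _ = c₂ * ∑ S : Finset (Fin M × Fin r), ∑ S' : Finset (Fin M × Fin r),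
          ∑ τ ∈ T D M r, mu τ * (if Close (pS S τ) (pS S' τ) then 1 else 0) := by
          rw [mul_sum]
          exact sum_congr rfl fun S _ => by rw [mul_sum]
      _ ≤ _ := mul_le_mul_of_nonneg_left (second hpos hβ hC hβ0) hc2.le
  set W : ℝ := ∑ x ∈ EE D M r Y P, mu x.1 * (1 / (x.2 : ℝ)) with hW
  have hCS : (∑ x ∈ T D M r ×ˢ P, wt x * f x) ^ 2 ≤ W * ∑ x ∈ T D M r ×ˢ P, wt x * f x ^ 2 := by
    have e1 : ∑ x ∈ T D M r ×ˢ P, wt x * f x = ∑ x ∈ EE D M r Y P, wt x * f x := by
      unfold EE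
      rw [sum_filter]
      refine sum_congr rfl fun x _ => ?_
      split_ifs with h
      · rfl
      · have : f x = 0 := sum_eq_zero fun S _ => if_neg fun hS => h ⟨S, hS⟩
        rw [this, mul_zero]
    have e2 : ∑ x ∈ EE D M r Y P, wt x * f x ^ 2 ≤ ∑ x ∈ T D M r ×ˢ P, wt x * f x ^ 2 :=
      sum_le_sum_of_subset_of_nonneg (filter_subset _ _) fun x _ _ => mul_nonneg (hwt0 x) (sq_nonneg _)
    rw [e1]
    have h := sum_sq_le_sum_mul_sum_of_sq_le_mul (EE D M r Y P) (r := fun x => wt x * f x) (f := fun x => wt x)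
      (g := fun x => wt x * f x ^ 2) (fun x _ => hwt0 x) (fun x _ => mul_nonneg (hwt0 x) (sq_nonneg _))
      (fun x _ => le_of_eq (by ring))
    refine h.trans ?_
    exact mul_le_mul_of_nonneg_left e2 (sum_nonneg fun x _ => hwt0 x)
  have hW0 : 0 ≤ W := by
    rw [hW]
    exact sum_nonneg fun x _ => hwt0 x
  have hA : 0 < (2 : ℝ) ^ (M * r) * GG D M r := by positivity
  set A : ℝ := (2 : ℝ) ^ (M * r) * GG D M r with hAdef
  have h5 : (A * c₁) ^ 2 ≤ W * (c₂ * (A * (1 + C * M))) := by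
    calc (A * c₁) ^ 2 ≤ (∑ x ∈ T D M r ×ˢ P, wt x * f x) ^ 2 :=
          pow_le_pow_left₀ (by positivity) hF1 2
      _ ≤ W * ∑ x ∈ T D M r ×ˢ P, wt x * f x ^ 2 := hCS
      _ ≤ W * (c₂ * (A * (1 + C * M))) := by
          refine mul_le_mul_of_nonneg_left (hF2.trans (le_of_eq ?_)) hW0
          rw [hAdef]; ring
  have h6 : A * (c₁ ^ 2 * A) ≤ A * (c₂ * (1 + C * M) * W) := by nlinarith
  exact le_of_mul_le_mul_left h6 hA

end Pool.MedDiv
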