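import Mathlib

/-!
# MedDiv: integers with a divisor in an interval, uniform in short windows

Problem MP_d08b2e_nt. Notation: `Q` is a finite set of primes, `om Q m` the number of `p ∈ Q` dividing `m`,
`rs Q = ∑_{p ∈ Q} 1/p`, `pr a b` the primes in `(a, b]`, `del = 1 - (1 + log log 2)/log 2 = 0.0860…`.
-/

set_option autoImplicit false

namespace Pool.MedDiv

open Finset

/-- primes in `(a, b]` -/
def pr (a b : ℕ) : Finset ℕ := (Ioc a b).filter Nat.Prime

/-- number of `p ∈ Q` dividing `m` -/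
def om (Q : Finset ℕ) (m : ℕ) : ℕ := (Q.filter (fun p => p ∣ m)).card

/-- `∑_{p ∈ Q} 1/p` -/
noncomputable def rs (Q : Finset ℕ) : ℝ := ∑ p ∈ Q, 1 / (p : ℝ)

/-- the Erdős–Tenenbaum–Ford constant -/
noncomputable def del : ℝ := 1 - (1 + Real.log (Real.log 2)) / Real.log 2

end Pool.MedDiv
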