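import Pool.Agent.MedDiv.Fib
import Pool.Agent.MedDiv.Blk

/-!
# MedDiv / Dens: a large set of integers `a p ≤ 2 Y²` with a divisor in `(Y, 1.9 Y]`
-/

set_option autoImplicit false

namespace Pool.MedDiv

open Finset

/-- the blocks: primes `q` with `2^(r(i+1)) < log q ≤ 2^(r(i+2))` -/
noncomputable def DD (r i : ℕ) : Finset ℕ := Pool.SWP.QQ (2 ^ (r * (i + 1))) (2 ^ (r * (i + 2)))

theorem mem_DD {r i q : ℕ} : q ∈ DD r i ↔
    (⌊Real.exp ((2 ^ (r * (i + 1)) : ℕ) : ℝ)⌋₊ < q ∧ q ≤ ⌊Real.exp ((2 ^ (r * (i + 2)) : ℕ) : ℝ)⌋₊) ∧ q.Prime := by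
  unfold DD Pool.SWP.QQ
  rw [mem_filter, mem_Ioc]

theorem exp_lt_of_mem {r i q : ℕ} (h : q ∈ DD r i) : Real.exp ((2 : ℝ) ^ (r * (i + 1))) < q := by
  have := (Nat.floor_lt (Real.exp_pos _).le).1 (mem_DD.1 h).1.1
  push_cast at this
  exact this

theorem le_exp_of_mem {r i q : ℕ} (h : q ∈ DD r i) : (q : ℝ) ≤ Real.exp ((2 : ℝ) ^ (r * (i + 2))) := by
  have := (Nat.le_floor_iff (Real.exp_pos _).le).1 (mem_DD.1 h).1.2
  push_cast at this
  exact this

theorem geo_sum {r : ℕ} (hr : 1 ≤ r) (M : ℕ) :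
    ∑ i ∈ range M, (2 : ℝ) ^ (r * (i + 2)) ≤ 2 * 2 ^ (r * (M + 1)) := by
  induction M with
  | zero => simp
  | succ M ih =>
    rw [sum_range_succ]
    have h1 : (2 : ℝ) * 2 ^ (r * (M + 1)) ≤ 2 ^ (r * (M + 2)) := by
      have e : (2 : ℝ) ^ (r * (M + 2)) = 2 ^ (r * (M + 1)) * 2 ^ r := by rw [← pow_add]; ring_nf
      have h2 : (2 : ℝ) ≤ 2 ^ r := by
        calc (2 : ℝ) = 2 ^ 1 := by norm_num
          _ ≤ 2 ^ r := pow_le_pow_right₀ (by norm_num) hr
      rw [e, mul_comm]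
      exact mul_le_mul_of_nonneg_left h2 (by positivity)
    have e2 : r * (M + 1 + 1) = r * (M + 2) := by ring
    rw [e2]
    linarith

theorem pS_le {r M : ℕ} (hr : 1 ≤ r) {τ : Fin M × Fin r → ℕ} (hτ : τ ∈ T (DD r) M r)
    (S : Finset (Fin M × Fin r)) :
    0 < pS S τ ∧ (pS S τ : ℝ) ≤ Real.exp (2 * r * 2 ^ (r * (M + 1))) := by
  rw [mem_T] at hτ
  have hpos : ∀ c, 0 < τ c := fun c => (mem_DD.1 (hτ c)).2.pos
  refine ⟨prod_pos fun c _ => hpos c, ?_⟩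
  have hnat : pS S τ ≤ ∏ c : Fin M × Fin r, τ c :=
    prod_le_prod_of_subset_of_one_le' (subset_univ S) fun c _ _ => hpos c
  calc (pS S τ : ℝ) ≤ ∏ c : Fin M × Fin r, (τ c : ℝ) := by exact_mod_cast hnat
    _ ≤ ∏ c : Fin M × Fin r, Real.exp ((2 : ℝ) ^ (r * ((c.1 : ℕ) + 2))) :=
        prod_le_prod (fun c _ => Nat.cast_nonneg _) fun c _ => le_exp_of_mem (hτ c)
    _ = Real.exp (∑ c : Fin M × Fin r, (2 : ℝ) ^ (r * ((c.1 : ℕ) + 2))) := by rw [Real.exp_sum]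
    _ ≤ _ := by
        refine Real.exp_le_exp.mpr ?_
        rw [Fintype.sum_prod_type]
        simp only [sum_const, card_univ, Fintype.card_fin, nsmul_eq_mul]
        rw [← mul_sum, Fin.sum_univ_eq_sum_range (fun i => (2 : ℝ) ^ (r * (i + 2)))]
        have := mul_le_mul_of_nonneg_left (geo_sum hr M) (Nat.cast_nonneg (α := ℝ) r)
        linarith

theorem phi_low : ∃ C₀ : ℝ, 0 < C₀ ∧ ∃ Y₁ : ℝ, 2 ≤ Y₁ ∧ ∀ r M Y : ℕ, 1 ≤ r → 1 ≤ r * Real.log 2 - C₀ → Y₁ ≤ Y →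
    4 * r * (2 : ℝ) ^ (r * (M + 1)) ≤ Real.log Y →
    ∃ Φ : Finset ℕ, (∀ N ∈ Φ, 0 < N ∧ N ≤ 2 * Y ^ 2 ∧ ∀ p, p.Prime → p ∣ N → p ≤ 2 * Y) ∧
      (∀ N ∈ Φ, ∃ k, Y < k ∧ 10 * k ≤ 19 * Y ∧ k ∣ N) ∧
      (2 : ℝ) ^ (M * r) * ((r * Real.log 2 - C₀) ^ r) ^ M / (432 * Real.log Y * (1 + 6 * M) * (r.factorial : ℝ) ^ M) ≤
        ∑ N ∈ Φ, 1 / (N : ℝ) := by
  classical
  obtain ⟨C₀, hC₀, hRS⟩ := Pool.SWP.RS_bounds
  obtain ⟨X₀, hX₀2, hwin⟩ := win_low
  refine ⟨C₀, hC₀, X₀ ^ 2 + 4, by nlinarith, fun r M Y hr hrC hY hM => ?_⟩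
  have hY4 : (4 : ℝ) ≤ Y := by nlinarith
  have hY0 : (0 : ℝ) < Y := by linarith
  have hlY : 0 < Real.log Y := Real.log_pos (by linarith)
  set sY : ℝ := Real.exp (Real.log Y / 2) with hsY
  have hsq : sY * sY = Y := by
    rw [hsY, ← Real.exp_add, add_halves, Real.exp_log hY0]
  have hsY0 : 0 < sY := Real.exp_pos _
  have hsX : X₀ ≤ sY := by
    by_contra h
    push Not at h
    nlinarith
  have hs1 : 1 ≤ sY := by linarith
  have hsYle : sY ≤ Y := by nlinarith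
  set P : Finset ℕ := pr ⌊Real.exp ((2 : ℝ) ^ (r * (M + 1)))⌋₊ (2 * Y) with hP
  have hpSs : ∀ τ ∈ T (DD r) M r, ∀ S, 0 < pS S τ ∧ (pS S τ : ℝ) ≤ sY := by
    intro τ hτ S
    refine ⟨(pS_le hr hτ S).1, (pS_le hr hτ S).2.trans (Real.exp_le_exp.mpr (by linarith))⟩
  have hexpM : Real.exp ((2 : ℝ) ^ (r * (M + 1))) ≤ sY := by
    refine Real.exp_le_exp.mpr ?_
    have h1 : (1 : ℝ) ≤ r := by exact_mod_cast hr
    have h2 : (0 : ℝ) ≤ 2 ^ (r * (M + 1)) := by positivity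
    nlinarith [mul_nonneg (by linarith : (0 : ℝ) ≤ r - 1) h2]
  have hrs : ∀ i < M, r * Real.log 2 - C₀ ≤ rs (DD r i) := by
    intro i _
    have h := (hRS (2 ^ (r * (i + 1))) (2 ^ (r * (i + 2))) Nat.one_le_two_pow
      (Nat.pow_le_pow_right (by norm_num) (by nlinarith))).1
    have e : ((2 ^ (r * (i + 2)) : ℕ) : ℝ) / ((2 ^ (r * (i + 1)) : ℕ) : ℝ) = 2 ^ r := by
      push_cast
      rw [div_eq_iff (by positivity), ← pow_add]
      ring_nf
    rw [e, Real.log_pow] at h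
    exact h
  have hrs1 : ∀ i < M, 1 ≤ rs (DD r i) := fun i hi => hrC.trans (hrs i hi)
  have hpos : ∀ i < M, 0 < rs (DD r i) := fun i hi => by linarith [hrs1 i hi]
  have hD : ∀ i < M, ∀ q ∈ DD r i, q.Prime := fun i _ q hq => (mem_DD.1 hq).2
  have hdisj : ∀ i < M, ∀ j < M, i ≠ j → Disjoint (DD r i) (DD r j) := by
    have key : ∀ i j, i < j → Disjoint (DD r i) (DD r j) := by
      intro i j hij
      rw [disjoint_left]
      intro q hq hq'
      have h1 := le_exp_of_mem hq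
      have h2 := exp_lt_of_mem hq'
      have h3 : Real.exp ((2 : ℝ) ^ (r * (i + 2))) ≤ Real.exp ((2 : ℝ) ^ (r * (j + 1))) := by
        refine Real.exp_le_exp.mpr (pow_le_pow_right₀ (by norm_num) (Nat.mul_le_mul_left r (by omega)))
      linarith
    intro i _ j _ hij
    rcases lt_or_gt_of_ne hij with h | h
    · exact key i j h
    · exact (key j i h).symm
  have hPp : ∀ p ∈ P, p.Prime ∧ ∀ i < M, p ∉ DD r i := by
    intro p hp
    rw [hP, pr, mem_filter, mem_Ioc] at hp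
    refine ⟨hp.2, fun i hi hpi => ?_⟩
    have h1 := le_exp_of_mem hpi
    have h2 : Real.exp ((2 : ℝ) ^ (r * (M + 1))) < p := (Nat.floor_lt (Real.exp_pos _).le).1 hp.1.1
    have h3 : Real.exp ((2 : ℝ) ^ (r * (i + 2))) ≤ Real.exp ((2 : ℝ) ^ (r * (M + 1))) := by
      refine Real.exp_le_exp.mpr (pow_le_pow_right₀ (by norm_num) (Nat.mul_le_mul_left r (by omega)))
    linarith
  have hβ : ∀ i < M, ∀ A B : ℕ, ∑ q ∈ (DD r i).filter (fun q => Close A (B * q)), 1 / (q : ℝ) ≤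
      6 / (2 : ℝ) ^ (r * (i + 1)) := by
    intro i _ A B
    refine close_up (one_le_pow₀ (by norm_num)) (A := A) (B := B) ?_ ?_
    · intro q hq
      rw [mem_filter] at hq
      exact ⟨(mem_DD.1 hq.1).2, (exp_lt_of_mem hq.1).le⟩
    · intro q hq
      exact (mem_filter.1 hq).2
  have hCC : ∀ i < M, (2 : ℝ) ^ (r * (i + 1)) * (6 / (2 : ℝ) ^ (r * (i + 1))) ≤ 6 * rs (DD r i) := by
    intro i hi
    rw [mul_div_cancel₀ _ (by positivity)]
    linarith [hrs1 i hi]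
  have hXr : ∀ τ ∈ T (DD r) M r, ∀ S, sY ≤ (Y : ℝ) / (pS S τ : ℝ) ∧ (Y : ℝ) / (pS S τ : ℝ) ≤ Y := by
    intro τ hτ S
    obtain ⟨h1, h2⟩ := hpSs τ hτ S
    have h1' : (0 : ℝ) < pS S τ := by exact_mod_cast h1
    have h1'' : (1 : ℝ) ≤ pS S τ := by exact_mod_cast h1
    constructor
    · rw [le_div_iff₀ h1']
      nlinarith
    · exact div_le_self hY0.le h1''
  have hgood : ∀ d p : ℕ, 0 < d → (Good Y d p ↔ (Y : ℝ) / d < p ∧ (p : ℝ) ≤ 19 / 10 * ((Y : ℝ) / d)) := by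
    intro d p hd
    have hd' : (0 : ℝ) < d := by exact_mod_cast hd
    unfold Good
    rw [div_lt_iff₀ hd']
    have e : (19 : ℝ) / 10 * ((Y : ℝ) / d) = (19 * Y / 10) / d := by ring
    rw [e, le_div_iff₀ hd', le_div_iff₀ (by norm_num : (0 : ℝ) < 10)]
    constructor
    · rintro ⟨h1, h2⟩
      constructor
      · rw [mul_comm]; exact_mod_cast h1
      · have : ((10 * (d * p) : ℕ) : ℝ) ≤ ((19 * Y : ℕ) : ℝ) := by exact_mod_cast h2
        push_cast at this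
        linarith
    · rintro ⟨h1, h2⟩
      constructor
      · rw [mul_comm] at h1; exact_mod_cast h1
      · have : ((10 * (d * p) : ℕ) : ℝ) ≤ ((19 * Y : ℕ) : ℝ) := by push_cast; linarith
        exact_mod_cast this
  have hwl := weight_low (P := P) (Y := Y) (c₁ := 1 / (6 * Real.log Y)) (c₂ := 12 / Real.log Y) (C := 6) hpos hβ hCC
    (fun i _ => by positivity) (by positivity) (by positivity) ?_ ?_
  · have hwf := weight_fib (r := r) hD hdisj hPp Y
    refine ⟨Phi (DD r) M r Y P, ?_, ?_, ?_⟩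
    · intro N hN
      unfold Phi at hN
      rw [mem_image] at hN
      obtain ⟨x, hx, rfl⟩ := hN
      unfold EE at hx
      rw [mem_filter, mem_product] at hx
      obtain ⟨⟨hx1, hx2⟩, -⟩ := hx
      have hu := hpSs x.1 hx1 univ
      have hphi : phi x = pS univ x.1 * x.2 := rfl
      have hp2 : x.2.Prime := (hPp _ hx2).1
      have hx2' := hx2
      rw [hP, pr, mem_filter, mem_Ioc] at hx2'
      have hle2Y : x.2 ≤ 2 * Y := hx2'.1.2
      have hpSY : pS univ x.1 ≤ Y := by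
        have : (pS univ x.1 : ℝ) ≤ Y := hu.2.trans hsYle
        exact_mod_cast this
      refine ⟨?_, ?_, ?_⟩
      · rw [hphi]; exact Nat.mul_pos hu.1 hp2.pos
      · rw [hphi]
        calc pS univ x.1 * x.2 ≤ Y * (2 * Y) := Nat.mul_le_mul hpSY hle2Y
          _ = _ := by ring
      · intro p hp hpN
        rw [hphi] at hpN
        rcases hp.dvd_mul.1 hpN with h | h
        · exact (Nat.le_of_dvd hu.1 h).trans (by omega)
        · exact (Nat.le_of_dvd hp2.pos h).trans hle2Y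
    · intro N hN
      unfold Phi at hN
      rw [mem_image] at hN
      obtain ⟨x, hx, rfl⟩ := hN
      unfold EE at hx
      rw [mem_filter] at hx
      obtain ⟨-, S, hS1, hS2⟩ := hx
      refine ⟨pS S x.1 * x.2, hS1, hS2, ?_⟩
      unfold phi pS
      exact Nat.mul_dvd_mul_right (prod_dvd_prod_of_subset _ _ _ (subset_univ S)) _
    · have hG : ((r * Real.log 2 - C₀) ^ r) ^ M ≤ GG (DD r) M r := by
        rw [GG_eq]
        have h0 : 0 ≤ r * Real.log 2 - C₀ := by linarith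
        calc ((r * Real.log 2 - C₀) ^ r) ^ M = ∏ i ∈ range M, (r * Real.log 2 - C₀) ^ r := by
              rw [prod_const, card_range]
          _ ≤ _ := prod_le_prod (fun i _ => by positivity) fun i hi =>
              pow_le_pow_left₀ h0 (hrs i (mem_range.1 hi)) r
      set Sg := ∑ N ∈ Phi (DD r) M r Y P, 1 / (N : ℝ) with hSg
      have hM0 : (0 : ℝ) < 1 + 6 * M := by positivity
      have hf0 : (0 : ℝ) < (r.factorial : ℝ) ^ M := by positivity
      have h1 : (1 / (6 * Real.log Y)) ^ 2 * ((2 : ℝ) ^ (M * r) * ((r * Real.log 2 - C₀) ^ r) ^ M) ≤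
          12 / Real.log Y * (1 + 6 * M) * ((r.factorial : ℝ) ^ M * Sg) := by
        calc _ ≤ (1 / (6 * Real.log Y)) ^ 2 * ((2 : ℝ) ^ (M * r) * GG (DD r) M r) := by gcongr
          _ ≤ _ := hwl
          _ ≤ _ := by gcongr
      rw [div_le_iff₀ (by positivity)]
      have h2 : (1 / (6 * Real.log Y)) ^ 2 * (36 * Real.log Y ^ 2) = 1 := by
        field_simp
        norm_num
      have h3 := mul_le_mul_of_nonneg_right h1 (by positivity : 0 ≤ 36 * Real.log Y ^ 2)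
      calc (2 : ℝ) ^ (M * r) * ((r * Real.log 2 - C₀) ^ r) ^ M =
          (1 / (6 * Real.log Y)) ^ 2 * ((2 : ℝ) ^ (M * r) * ((r * Real.log 2 - C₀) ^ r) ^ M) *
            (36 * Real.log Y ^ 2) := by
            calc _ = ((1 / (6 * Real.log Y)) ^ 2 * (36 * Real.log Y ^ 2)) *
                  ((2 : ℝ) ^ (M * r) * ((r * Real.log 2 - C₀) ^ r) ^ M) := by rw [h2, one_mul]
              _ = _ := by ring
        _ ≤ 12 / Real.log Y * (1 + 6 * M) * ((r.factorial : ℝ) ^ M * Sg) * (36 * Real.log Y ^ 2) := h3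
        _ = _ := by
            field_simp
            ring
  · intro τ hτ S
    obtain ⟨hX1, hX2⟩ := hXr τ hτ S
    obtain ⟨hd1, hd2⟩ := hpSs τ hτ S
    have hXX : X₀ ≤ (Y : ℝ) / (pS S τ : ℝ) := hsX.trans hX1
    have h := hwin _ hXX (P.filter (fun p => Good Y (pS S τ) p)) ?_
    · refine le_trans ?_ h
      have hl1 : 0 < Real.log ((Y : ℝ) / (pS S τ : ℝ)) := Real.log_pos (by linarith)
      have hl2 : Real.log ((Y : ℝ) / (pS S τ : ℝ)) ≤ Real.log Y := Real.log_le_log (by linarith) hX2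
      exact one_div_le_one_div_of_le (by positivity) (by linarith)
    · intro p hp h1 h2
      rw [mem_filter]
      refine ⟨?_, (hgood _ _ hd1).2 ⟨h1, h2⟩⟩
      rw [hP, pr, mem_filter, mem_Ioc]
      refine ⟨⟨?_, ?_⟩, hp⟩
      · rw [Nat.floor_lt (Real.exp_pos _).le]
        linarith
      · have : (p : ℝ) ≤ ((2 * Y : ℕ) : ℝ) := by push_cast; linarith
        exact_mod_cast this
  · intro τ hτ S
    obtain ⟨hX1, hX2⟩ := hXr τ hτ S
    obtain ⟨hd1, hd2⟩ := hpSs τ hτ S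
    have hX2' : 2 ≤ (Y : ℝ) / (pS S τ : ℝ) := hX₀2.trans (hsX.trans hX1)
    refine (short_up hX2' fun q hq => ?_).trans ?_
    · rw [mem_filter] at hq
      have hg := (hgood _ _ hd1).1 hq.2
      exact ⟨(hPp q hq.1).1, hg.1.le, by linarith [hg.2]⟩
    · have hl3 : Real.log Y / 2 ≤ Real.log ((Y : ℝ) / (pS S τ : ℝ)) := by
        have := Real.log_le_log hsY0 hX1
        rwa [hsY, Real.log_exp] at this
      rw [div_le_div_iff₀ (by linarith) hlY]
      linarith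

end Pool.MedDiv
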