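import Pool.Agent.MedDiv.Cells

/-!
# MedDiv / Fib: the product of a tuple and the last prime has at most `(r!)^M` representations
-/

set_option autoImplicit false

namespace Pool.MedDiv

open Finset

variable {D : ℕ → Finset ℕ} {M r : ℕ}

/-- product of the tuple and the last prime -/
def phi (x : (Fin M × Fin r → ℕ) × ℕ) : ℕ := (∏ c, x.1 c) * x.2

theorem phi_inv (x : (Fin M × Fin r → ℕ) × ℕ) : mu x.1 * (1 / (x.2 : ℝ)) = 1 / (phi x : ℝ) := by
  unfold phi mu
  push_cast
  rw [prod_div_distrib]
  simp only [prod_const_one, one_div, mul_inv_rev]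
  ring

theorem mem_T {τ : Fin M × Fin r → ℕ} : τ ∈ T D M r ↔ ∀ c : Fin M × Fin r, τ c ∈ D c.1 := by
  unfold T
  rw [Fintype.mem_piFinset]

theorem count_eq {τ : Fin M × Fin r → ℕ} (hp : ∀ c, (τ c).Prime) (q : ℕ) :
    (∏ c, τ c).factorization q = (univ.filter (fun c => τ c = q)).card := by
  rw [Nat.factorization_prod (fun c _ => (hp c).ne_zero), Finset.sum_apply', card_filter]
  refine sum_congr rfl fun c _ => ?_
  rw [(hp c).factorization, Finsupp.single_apply]

theorem fiber_card (hD : ∀ i < M, ∀ q ∈ D i, q.Prime) (hdisj : ∀ i < M, ∀ j < M, i ≠ j → Disjoint (D i) (D j))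
    {P : Finset ℕ} (hP : ∀ p ∈ P, p.Prime ∧ ∀ i < M, p ∉ D i) (N : ℕ) :
    ((T D M r ×ˢ P).filter (fun x => phi x = N)).card ≤ (r.factorial) ^ M := by
  classical
  rcases ((T D M r ×ˢ P).filter (fun x => phi x = N)).eq_empty_or_nonempty with h0 | ⟨x₀, hx₀⟩
  · rw [h0]; simp
  · rw [mem_filter, mem_product, mem_T] at hx₀
    obtain ⟨⟨hτ₀, hp₀⟩, hN₀⟩ := hx₀
    have hpr : ∀ τ : Fin M × Fin r → ℕ, (∀ c : Fin M × Fin r, τ c ∈ D c.1) → ∀ c, (τ c).Prime :=
      fun τ hτ c => hD c.1 c.1.2 _ (hτ c)
    have hsub : (T D M r ×ˢ P).filter (fun x => phi x = N) ⊆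
        (univ : Finset (Fin M → Equiv.Perm (Fin r))).image
          (fun σ => ((fun c => x₀.1 (c.1, σ c.1 c.2) : Fin M × Fin r → ℕ), x₀.2)) := by
      intro x hx
      rw [mem_filter, mem_product, mem_T] at hx
      obtain ⟨⟨hτ, hp⟩, hN⟩ := hx
      have hxp : x.2 = x₀.2 := by
        have h1 : x.2 ∣ (∏ c, x₀.1 c) * x₀.2 := by
          have : phi x = phi x₀ := hN.trans hN₀.symm
          unfold phi at this
          rw [← this]
          exact dvd_mul_left _ _
        rcases (hP _ hp).1.dvd_mul.1 h1 with h2 | h2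
        · exfalso
          obtain ⟨c, _, hc⟩ := ((hP _ hp).1.prime.dvd_finsetProd_iff _).1 h2
          have := (Nat.prime_dvd_prime_iff_eq (hP _ hp).1 (hpr _ hτ₀ c)).1 hc
          exact (hP _ hp).2 c.1 c.1.2 (this ▸ hτ₀ c)
        · exact (Nat.prime_dvd_prime_iff_eq (hP _ hp).1 (hP _ hp₀).1).1 h2
      have hprod : ∏ c, x.1 c = ∏ c, x₀.1 c := by
        have : phi x = phi x₀ := hN.trans hN₀.symm
        unfold phi at this
        rw [hxp] at this
        exact Nat.eq_of_mul_eq_mul_right (hP _ hp₀).1.pos this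
      have hcard : ∀ (i : Fin M) (q : ℕ), Fintype.card {j : Fin r // x.1 (i, j) = q} =
          Fintype.card {j : Fin r // x₀.1 (i, j) = q} := by
        intro i q
        rw [Fintype.card_subtype, Fintype.card_subtype]
        by_cases hq : q ∈ D i
        · have key : ∀ τ : Fin M × Fin r → ℕ, (∀ c : Fin M × Fin r, τ c ∈ D c.1) →
              (univ.filter (fun j : Fin r => τ (i, j) = q)).card = (univ.filter (fun c => τ c = q)).card := by
            intro τ h
            refine card_bij (fun j _ => (i, j)) ?_ ?_ ?_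
            · intro j hj
              rw [mem_filter] at hj ⊢
              exact ⟨mem_univ _, hj.2⟩
            · intro a _ b _ hab
              exact (Prod.mk.inj hab).2
            · intro c hc
              rw [mem_filter] at hc
              have hci : c.1 = i := by
                by_contra hne
                have hd := hdisj c.1 c.1.2 i i.2 (fun h => hne (Fin.ext h))
                exact disjoint_left.1 hd (hc.2 ▸ h c) hq
              refine ⟨c.2, ?_, ?_⟩
              · rw [mem_filter]
                refine ⟨mem_univ _, ?_⟩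
                rw [← hci]
                exact hc.2
              · rw [← hci]
          rw [key _ hτ, key _ hτ₀, ← count_eq (hpr _ hτ), ← count_eq (hpr _ hτ₀), hprod]
        · rw [filter_false_of_mem, filter_false_of_mem]
          · intro j _ h
            exact hq (h ▸ hτ₀ (i, j))
          · intro j _ h
            exact hq (h ▸ hτ (i, j))
      rw [mem_image]
      refine ⟨fun i => Equiv.ofFiberEquiv (f := fun j => x.1 (i, j)) (g := fun j => x₀.1 (i, j))
        (fun q => Fintype.equivOfCardEq (hcard i q)), mem_univ _, ?_⟩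
      refine Prod.ext ?_ hxp.symm
      funext c
      exact Equiv.ofFiberEquiv_map (f := fun j => x.1 (c.1, j)) (g := fun j => x₀.1 (c.1, j)) _ c.2
    refine (card_le_card hsub).trans (card_image_le.trans ?_)
    rw [card_univ, Fintype.card_fun, Fintype.card_perm, Fintype.card_fin, Fintype.card_fin]

/-- the integers `a p` -/
def Phi (D : ℕ → Finset ℕ) (M r Y : ℕ) (P : Finset ℕ) : Finset ℕ := (EE D M r Y P).image phi

theorem weight_fib (hD : ∀ i < M, ∀ q ∈ D i, q.Prime) (hdisj : ∀ i < M, ∀ j < M, i ≠ j → Disjoint (D i) (D j))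
    {P : Finset ℕ} (hP : ∀ p ∈ P, p.Prime ∧ ∀ i < M, p ∉ D i) (Y : ℕ) :
    ∑ x ∈ EE D M r Y P, mu x.1 * (1 / (x.2 : ℝ)) ≤ (r.factorial : ℝ) ^ M * ∑ N ∈ Phi D M r Y P, 1 / (N : ℝ) := by
  classical
  rw [sum_congr rfl fun x _ => phi_inv x]
  have h := sum_comp (s := EE D M r Y P) (fun N : ℕ => 1 / (N : ℝ)) phi
  unfold Phi
  rw [h, mul_sum]
  refine sum_le_sum fun N _ => ?_
  rw [nsmul_eq_mul]
  refine mul_le_mul_of_nonneg_right ?_ (by positivity)
  have h1 : ((EE D M r Y P).filter (fun x => phi x = N)).card ≤ (r.factorial) ^ M := by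
    refine le_trans (card_le_card ?_) (fiber_card hD hdisj hP N)
    exact filter_subset_filter _ (filter_subset _ _)
  exact_mod_cast h1

end Pool.MedDiv
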